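import Mathlib

set_option autoImplicit false

open MeasureTheory ProbabilityTheory Set
open scoped ENNReal

namespace Pool.Agent.Lib.MP_2024f4_pr

section PDMP

variable {X : Type} [NormedAddCommGroup X] [NormedSpace ℝ X] [MeasurableSpace X]

/-- Free flight for time `s`: `(x, v) ↦ (x + s v, v)`. -/
def flow (s : ℝ) (z : X × X) : X × X := (z.1 + s • z.2, z.2)

/-- `N z` is the jump intensity measure at the state `z` (its total mass is the total jump rate).
`surv N z t` is the probability that no jump occurs during `[0, t]` when starting at `z`. -/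
noncomputable def surv (N : X × X → Measure (X × X)) (z : X × X) (t : ℝ) : ℝ≥0∞ :=
  ENNReal.ofReal (Real.exp (-∫ s in (0 : ℝ)..t, (N (flow s z) univ).toReal))

/-- `lawN N n t z` is the law of the state at time `t`, started at `z`, on the event that exactly
`n` jumps occur during `[0, t]` (recursion on the time `s` of the first jump). -/
noncomputable def lawN (N : X × X → Measure (X × X)) : ℕ → ℝ → X × X → Measure (X × X)
  | 0, t, z => surv N z t • Measure.dirac (flow t z)
  | n + 1, t, z => (volume.restrict (Ioc (0 : ℝ) t)).bind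
      (fun s => surv N z s • (N (flow s z)).bind (lawN N n (t - s)))

/-- The law at time `t` of the piecewise deterministic process with jump intensity `N` and
initial law `p₀`. -/
noncomputable def law (N : X × X → Measure (X × X)) (p₀ : Measure (X × X)) (t : ℝ) :
    Measure (X × X) :=
  p₀.bind (fun z => Measure.sum (fun n => lawN N n t z))

/-- Exponential tails in the position variable. -/
def ExpTails (p₀ : Measure (X × X)) : Prop :=
  ∃ a : ℝ, 0 < a ∧ Integrable (fun z : X × X => Real.exp (a * ‖z.1‖)) p₀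

/-- No rate works uniformly: for every `lam > 0` some initial probability law with exponential
tails and finite relative entropy (whose time-`t` laws are probability measures) admits no
constant `C₀` with `KL(p_t ‖ μ) ≤ C₀ exp (-lam t)` for all `t ≥ 0`. -/
def NoUniformRate (N : X × X → Measure (X × X)) (μ : Measure (X × X)) : Prop :=
  ∀ lam : ℝ, 0 < lam → ∃ p₀ : Measure (X × X), IsProbabilityMeasure p₀ ∧ ExpTails p₀ ∧
    InformationTheory.klDiv p₀ μ ≠ ∞ ∧ (∀ t, 0 ≤ t → IsProbabilityMeasure (law N p₀ t)) ∧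
    ¬ ∃ C₀ : ℝ, ∀ t, 0 ≤ t →
      InformationTheory.klDiv (law N p₀ t) μ ≤ ENNReal.ofReal (C₀ * Real.exp (-lam * t))

end PDMP

section Inner

variable {X : Type} [NormedAddCommGroup X] [InnerProductSpace ℝ X] [FiniteDimensional ℝ X]
  [MeasurableSpace X] [BorelSpace X]

/-- The target `π(dx) ∝ exp (-U x) dx`. -/
noncomputable def target (U : X → ℝ) : Measure X := volume.tilted (fun x => -U x)

/-- Standing assumptions on the potential: `C²`, `exp (-U)` integrable, bounded Hessian. -/
def Standing (U : X → ℝ) : Prop :=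
  ContDiff ℝ 2 U ∧ Integrable (fun x => Real.exp (-U x)) volume ∧
    ∃ M : ℝ, ∀ x, ‖iteratedFDeriv ℝ 2 U x‖ ≤ M

/-- Log-Sobolev inequality for a measure `p` on `X`. -/
def LSI (p : Measure X) : Prop :=
  ∃ C : ℝ, ∀ f : X → ℝ, ContDiff ℝ ((⊤ : ℕ∞) : WithTop ℕ∞) f → Integrable (fun x => f x ^ 2) p →
    Integrable (fun x => f x ^ 2 * Real.log (f x ^ 2)) p →
    Integrable (fun x => ‖gradient f x‖ ^ 2) p →
      ∫ x, f x ^ 2 * Real.log (f x ^ 2) ∂p - (∫ x, f x ^ 2 ∂p) * Real.log (∫ x, f x ^ 2 ∂p) ≤
        2 * C * ∫ x, ‖gradient f x‖ ^ 2 ∂p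

/-- Reflection of `v` in the hyperplane orthogonal to `g`. -/
noncomputable def reflect (g v : X) : X := v - (2 * inner ℝ v g / ‖g‖ ^ 2) • g

/-- Jump intensity of the Bouncy Particle Sampler. -/
noncomputable def bps (U : X → ℝ) (γ : ℝ) (z : X × X) : Measure (X × X) :=
  ENNReal.ofReal (max (inner ℝ z.2 (gradient U z.1)) 0) •
      Measure.dirac (z.1, reflect (gradient U z.1) z.2) +
    ENNReal.ofReal γ • (stdGaussian X).map (fun w => (z.1, w))

end Inner

/-- `ℝ^d` with the Euclidean norm. -/
abbrev Euc (d : ℕ) : Type := EuclideanSpace ℝ (Fin d)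

/-- Flip the sign of the `i`-th coordinate. -/
noncomputable def flip {d : ℕ} (i : Fin d) (v : Euc d) : Euc d :=
  v - EuclideanSpace.single i (2 * v i)

/-- Jump intensity of the Zig-Zag process. -/
noncomputable def zigzag {d : ℕ} (U : Euc d → ℝ) (γ : Fin d → ℝ) (z : Euc d × Euc d) :
    Measure (Euc d × Euc d) :=
  ∑ i, ENNReal.ofReal (max (z.2 i * gradient U z.1 i) 0 + γ i) • Measure.dirac (z.1, flip i z.2)

/-- The uniform distribution on `{-1, 1}^d`. -/
noncomputable def signs (d : ℕ) : Measure (Euc d) := uniformOn {v | ∀ i, v i = 1 ∨ v i = -1}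

end Pool.Agent.Lib.MP_2024f4_pr
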