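import Mathlib
import Pool.Agent.Lib.MP_2024f4_pr.Defs

set_option autoImplicit false
set_option linter.unusedSectionVars false

open MeasureTheory ProbabilityTheory Set Filter Topology
open scoped ENNReal

namespace Pool.Agent.Lib.MP_2024f4_pr

variable {X : Type} [NormedAddCommGroup X] [InnerProductSpace ℝ X] [FiniteDimensional ℝ X]
  [MeasurableSpace X] [BorelSpace X]

lemma deriv_st_neg {x : ℝ} (hx : x < 0) : deriv Real.smoothTransition x = 0 := by
  have : Real.smoothTransition =ᶠ[𝓝 x] fun _ => 0 := by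
    filter_upwards [Iio_mem_nhds hx] with y hy using Real.smoothTransition.zero_of_nonpos hy.le
  rw [this.deriv_eq, deriv_const]

lemma deriv_st_bound : ∃ K : ℝ, ∀ x, |deriv Real.smoothTransition x| ≤ K := by
  have hc : Continuous (deriv Real.smoothTransition) :=
    (Real.smoothTransition.contDiff (n := 1)).continuous_deriv le_rfl
  obtain ⟨K, hK⟩ := (isCompact_Icc (a := (0 : ℝ)) (b := 1)).exists_bound_of_continuousOn
    hc.continuousOn
  have hK0 : 0 ≤ K := (norm_nonneg _).trans (hK 0 ⟨le_rfl, zero_le_one⟩)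
  refine ⟨K, fun x => ?_⟩
  rcases lt_or_ge x 0 with h | h
  · rw [deriv_st_neg h]; simpa using hK0
  rcases le_or_gt x 1 with h' | h'
  · exact hK x ⟨h, h'⟩
  · have : Real.smoothTransition =ᶠ[𝓝 x] fun _ => 1 := by
      filter_upwards [Ioi_mem_nhds h'] with y hy using Real.smoothTransition.one_of_one_le hy.le
    rw [this.deriv_eq, deriv_const]; simpa using hK0

lemma tail_of_LSI (p : Measure X) [IsProbabilityMeasure p] (hp : LSI p) (l : X →L[ℝ] ℝ)
    (hl : ‖l‖ ≤ 1) : ∃ C : ℝ, ∀ n : ℕ, p.real {x | (n : ℝ) ≤ l x} ≤ C * (1 / 2) ^ n := by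
  obtain ⟨C, hC⟩ := hp
  obtain ⟨K, hK⟩ := deriv_st_bound
  have hmeas : ∀ R : ℝ, MeasurableSet {x | R ≤ l x} := fun R =>
    (isClosed_le continuous_const l.continuous).measurableSet
  set T : ℝ → ℝ := fun R => p.real {x | R ≤ l x} with hT
  set B : ℝ := 1 + 2 * |C| * K ^ 2 with hB
  have hB0 : 0 < B := by positivity
  have hstep : ∀ R : ℝ, T R ≤ Real.exp (-(2 * B)) → T (R + 1) ≤ T R / 2 := by
    intro R hR
    let f : X → ℝ := fun x => Real.smoothTransition (l x - R)
    have hf : ContDiff ℝ ((⊤ : ℕ∞) : WithTop ℕ∞) f :=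
      Real.smoothTransition.contDiff.comp (l.contDiff.sub contDiff_const)
    have hf0 : ∀ x, 0 ≤ f x := fun x => Real.smoothTransition.nonneg _
    have hf1 : ∀ x, f x ≤ 1 := fun x => Real.smoothTransition.le_one _
    have hfc : Continuous f := hf.continuous
    have hgrad : ∀ x, ‖gradient f x‖ ≤ |deriv Real.smoothTransition (l x - R)| := by
      intro x
      have h1 : HasDerivAt Real.smoothTransition (deriv Real.smoothTransition (l x - R))
          (l x - R) := ((Real.smoothTransition.contDiff (n := 1)).differentiable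
            (by simp) _).hasDerivAt
      have h2 : HasFDerivAt f (deriv Real.smoothTransition (l x - R) • l) x :=
        HasDerivAt.comp_hasFDerivAt (h₂ := Real.smoothTransition) (f := fun x => l x - R) x h1
          (l.hasFDerivAt.sub_const R)
      rw [gradient, LinearIsometryEquiv.norm_map, h2.fderiv, norm_smul, Real.norm_eq_abs]
      exact mul_le_of_le_one_right (abs_nonneg _) hl
    have hind : ∀ c : ℝ, Integrable ({x | R ≤ l x}.indicator (fun _ => c)) p := fun c =>
      (integrable_const c).indicator (hmeas R)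
    have hindint : ∀ c : ℝ, ∫ x, {x | R ≤ l x}.indicator (fun _ => c) x ∂p = T R * c := by
      intro c
      rw [integral_indicator (hmeas R), setIntegral_const, smul_eq_mul]
    have hg2 : ∀ x, ‖gradient f x‖ ^ 2 ≤ {x | R ≤ l x}.indicator (fun _ => K ^ 2) x := by
      intro x
      by_cases hx : R ≤ l x
      · rw [indicator_of_mem (show x ∈ {x | R ≤ l x} from hx)]
        exact pow_le_pow_left₀ (norm_nonneg _) ((hgrad x).trans (hK _)) 2
      · rw [indicator_of_notMem (show x ∉ {x | R ≤ l x} from hx)]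
        have := hgrad x
        rw [deriv_st_neg (by linarith [not_le.mp hx]), abs_zero] at this
        rw [le_antisymm this (norm_nonneg _)]; simp
    have hgc : Continuous (fun x => ‖gradient f x‖ ^ 2) := by
      have h1 : Continuous (fderiv ℝ f) := hf.continuous_fderiv (by simp)
      exact (((InnerProductSpace.toDual ℝ X).symm.continuous.comp h1).norm).pow 2
    have i1 : Integrable (fun x => f x ^ 2) p :=
      Integrable.of_bound (hfc.pow 2).aestronglyMeasurable 1 (ae_of_all _ fun x => by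
        rw [Real.norm_of_nonneg (sq_nonneg _)]; exact pow_le_one₀ (hf0 x) (hf1 x))
    have hlog : ∀ x, -{x | R ≤ l x}.indicator (fun _ => (1 : ℝ)) x ≤
        f x ^ 2 * Real.log (f x ^ 2) ∧ f x ^ 2 * Real.log (f x ^ 2) ≤ 0 := by
      intro x
      have h1 : f x ^ 2 ≤ 1 := pow_le_one₀ (hf0 x) (hf1 x)
      refine ⟨?_, mul_nonpos_of_nonneg_of_nonpos (sq_nonneg _) (Real.log_nonpos (sq_nonneg _) h1)⟩
      by_cases hx : R ≤ l x
      · rw [indicator_of_mem (show x ∈ {x | R ≤ l x} from hx)]
        have := Real.self_sub_one_le_mul_log (sq_nonneg (f x))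
        nlinarith [sq_nonneg (f x)]
      · have : f x = 0 := Real.smoothTransition.zero_of_nonpos (by linarith [not_le.mp hx])
        rw [indicator_of_notMem (show x ∉ {x | R ≤ l x} from hx), this]; simp
    have i2 : Integrable (fun x => f x ^ 2 * Real.log (f x ^ 2)) p :=
      Integrable.of_bound (Real.continuous_mul_log.comp (hfc.pow 2)).aestronglyMeasurable 1
        (ae_of_all _ fun x => by
          have h1 := hlog x
          have h2 : {x | R ≤ l x}.indicator (fun _ => (1 : ℝ)) x ≤ 1 :=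
            indicator_le_self' (fun _ _ => zero_le_one) x
          rw [Real.norm_eq_abs, abs_le]
          constructor <;> linarith [h1.1, h1.2])
    have i3 : Integrable (fun x => ‖gradient f x‖ ^ 2) p :=
      (hind (K ^ 2)).mono' hgc.aestronglyMeasurable (ae_of_all _ fun x => by
        rw [Real.norm_of_nonneg (sq_nonneg _)]; exact hg2 x)
    have hL := hC f hf i1 i2 i3
    have e1 : ∫ x, ‖gradient f x‖ ^ 2 ∂p ≤ T R * K ^ 2 := by
      rw [← hindint]; exact integral_mono i3 (hind _) hg2
    have e2 : -T R ≤ ∫ x, f x ^ 2 * Real.log (f x ^ 2) ∂p := by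
      have := integral_mono (hind 1).neg i2 (fun x => (hlog x).1)
      simp only [Pi.neg_apply] at this
      rw [integral_neg, hindint, mul_one] at this
      exact this
    set m := ∫ x, f x ^ 2 ∂p with hm
    have e3 : m ≤ T R := by
      rw [← mul_one (T R), ← hindint]
      refine integral_mono i1 (hind _) fun x => ?_
      by_cases hx : R ≤ l x
      · rw [indicator_of_mem (show x ∈ {x | R ≤ l x} from hx)]
        exact pow_le_one₀ (hf0 x) (hf1 x)
      · have : f x = 0 := Real.smoothTransition.zero_of_nonpos (by linarith [not_le.mp hx])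
        rw [indicator_of_notMem (show x ∉ {x | R ≤ l x} from hx)]
        simp [this]
    have e4 : T (R + 1) ≤ m := by
      have : ∫ x, {x | R + 1 ≤ l x}.indicator (fun _ => (1 : ℝ)) x ∂p = T (R + 1) := by
        rw [integral_indicator (hmeas _), setIntegral_const, smul_eq_mul, mul_one]
      rw [← this]
      refine integral_mono ((integrable_const _).indicator (hmeas _)) i1 fun x => ?_
      by_cases hx : R + 1 ≤ l x
      · have : f x = 1 := Real.smoothTransition.one_of_one_le (by linarith)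
        rw [indicator_of_mem (show x ∈ {x | R + 1 ≤ l x} from hx)]
        simp [this]
      · rw [indicator_of_notMem (show x ∉ {x | R + 1 ≤ l x} from hx)]
        exact sq_nonneg _
    have hT0 : 0 ≤ T R := measureReal_nonneg
    have e5 : 2 * C * ∫ x, ‖gradient f x‖ ^ 2 ∂p ≤ 2 * |C| * (T R * K ^ 2) := by
      have h0 : 0 ≤ ∫ x, ‖gradient f x‖ ^ 2 ∂p := integral_nonneg fun x => sq_nonneg _
      calc _ ≤ 2 * |C| * ∫ x, ‖gradient f x‖ ^ 2 ∂p := by gcongr; exact le_abs_self C
        _ ≤ _ := by gcongr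
    have e6 : -(m * Real.log m) ≤ B * T R := by rw [hB]; nlinarith
    have hm0 : 0 ≤ m := integral_nonneg fun x => sq_nonneg _
    rcases hm0.eq_or_lt with h | h
    · linarith
    · have : Real.log m ≤ -(2 * B) := by
        rw [Real.log_le_iff_le_exp h]; exact e3.trans hR
      have h2 : B * (2 * m) ≤ B * T R := by nlinarith
      have := le_of_mul_le_mul_left h2 hB0
      linarith
  have hlim : Tendsto (fun n : ℕ => T n) atTop (𝓝 0) := by
    have h1 := tendsto_measure_iInter_atTop (μ := p) (s := fun n : ℕ => {x | (n : ℝ) ≤ l x})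
      (fun n => (hmeas _).nullMeasurableSet)
      (fun a b hab x (hx : (b : ℝ) ≤ l x) => show (a : ℝ) ≤ l x from
        le_trans (by exact_mod_cast hab) hx) ⟨0, measure_ne_top _ _⟩
    have h2 : ⋂ n : ℕ, {x | (n : ℝ) ≤ l x} = ∅ := by
      rw [eq_empty_iff_forall_notMem]
      intro x hx
      obtain ⟨n, hn⟩ := exists_nat_gt (l x)
      exact absurd (mem_iInter.mp hx n) (not_le.mpr hn)
    rw [h2, measure_empty] at h1
    exact (ENNReal.tendsto_toReal ENNReal.zero_ne_top).comp h1
  obtain ⟨n₀, hn₀⟩ := (hlim.eventually (ge_mem_nhds (Real.exp_pos (-(2 * B))))).exists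
  have hT1 : ∀ R, T R ≤ 1 := fun R => measureReal_le_one
  have hT0 : ∀ R, 0 ≤ T R := fun R => measureReal_nonneg
  have hind : ∀ k : ℕ, T ((n₀ + k : ℕ) : ℝ) ≤ Real.exp (-(2 * B)) ∧
      T ((n₀ + k : ℕ) : ℝ) ≤ (1 / 2) ^ k := by
    intro k
    induction k with
    | zero => exact ⟨by simpa using hn₀, by simpa using hT1 _⟩
    | succ k ih =>
      have h1 := hstep _ ih.1
      have h2 : ((n₀ + (k + 1) : ℕ) : ℝ) = ((n₀ + k : ℕ) : ℝ) + 1 := by push_cast; ring
      rw [h2, pow_succ]
      constructor <;> linarith [ih.1, ih.2, hT0 ((n₀ + k : ℕ) : ℝ)]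
  refine ⟨2 ^ n₀, fun n => ?_⟩
  show T n ≤ _
  rcases le_total n₀ n with h | h
  · obtain ⟨k, rfl⟩ := Nat.exists_eq_add_of_le h
    refine (hind k).2.trans (le_of_eq ?_)
    rw [pow_add, ← mul_assoc, ← mul_pow]; simp
  · obtain ⟨k, rfl⟩ := Nat.exists_eq_add_of_le h
    refine (hT1 _).trans ?_
    rw [pow_add, mul_comm ((2 : ℝ) ^ n), mul_assoc, ← mul_pow]
    simpa using one_le_pow₀ (by norm_num : (1 : ℝ) ≤ 2)

lemma poly_le_exp {a : ℝ} (ha : 0 < a) (k : ℕ) :
    ∃ c : ℝ, 0 ≤ c ∧ ∀ s : ℝ, 0 ≤ s → (1 + s) ^ k ≤ c * Real.exp (a * s) := by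
  refine ⟨k.factorial / a ^ k * Real.exp a, by positivity, fun s hs => ?_⟩
  have h1 := Real.pow_div_factorial_le_exp (a * (1 + s)) (by positivity) k
  rw [div_le_iff₀ (by positivity), mul_pow, mul_add, mul_one, Real.exp_add] at h1
  rw [div_mul_eq_mul_div, div_mul_eq_mul_div, le_div_iff₀ (by positivity)]
  linarith

lemma integrable_exp_neg_norm {a : ℝ} (ha : 0 < a) :
    Integrable (fun x : X => Real.exp (-a * ‖x‖)) volume := by
  obtain ⟨c, hc0, hc⟩ := poly_le_exp ha (Module.finrank ℝ X + 1)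
  have h1 := (integrable_one_add_norm (E := X) (μ := volume)
    (r := ((Module.finrank ℝ X + 1 : ℕ) : ℝ)) (by push_cast; linarith)).const_mul c
  refine h1.mono' (Continuous.aestronglyMeasurable (by fun_prop)) (ae_of_all _ fun x => ?_)
  rw [Real.norm_of_nonneg (Real.exp_nonneg _), Real.rpow_neg (by positivity), Real.rpow_natCast,
    ← div_eq_mul_inv, le_div_iff₀ (by positivity), neg_mul, Real.exp_neg, inv_mul_eq_div,
    div_le_iff₀ (Real.exp_pos _)]
  exact hc _ (norm_nonneg _)

lemma Standing.growth {U : X → ℝ} (hU : Standing U) :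
    ∃ B : ℝ, 0 ≤ B ∧ ∀ x, |U x| ≤ B * (1 + ‖x‖) ^ 2 := by
  obtain ⟨hC, -, M, hM⟩ := hU
  have hM0 : 0 ≤ M := (norm_nonneg _).trans (hM 0)
  have hd1 : Differentiable ℝ U := hC.differentiable (by simp)
  have hd2 : Differentiable ℝ (fderiv ℝ U) :=
    (hC.fderiv_right (m := 1) le_rfl).differentiable (by simp)
  have h1 : ∀ x, ‖fderiv ℝ U x‖ ≤ ‖fderiv ℝ U 0‖ + M * ‖x‖ := by
    intro x
    have h2 := convex_univ.norm_image_sub_le_of_norm_fderiv_le (𝕜 := ℝ) (f := fderiv ℝ U) (C := M)
      (fun y _ => hd2 y) (fun y _ => by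
        rw [← norm_iteratedFDeriv_one, norm_iteratedFDeriv_fderiv]; exact hM y)
      (mem_univ 0) (mem_univ x)
    rw [sub_zero] at h2
    linarith [norm_sub_norm_le (fderiv ℝ U x) (fderiv ℝ U 0)]
  refine ⟨|U 0| + ‖fderiv ℝ U 0‖ + M, by positivity, fun x => ?_⟩
  have h2 := (convex_closedBall (0 : X) ‖x‖).norm_image_sub_le_of_norm_fderiv_le (𝕜 := ℝ) (f := U)
    (C := ‖fderiv ℝ U 0‖ + M * ‖x‖) (fun y _ => hd1 y) (fun y hy => by
      rw [mem_closedBall_zero_iff] at hy
      refine (h1 y).trans ?_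
      gcongr) (Metric.mem_closedBall_self (norm_nonneg x)) (mem_closedBall_zero_iff.mpr le_rfl)
  rw [sub_zero, Real.norm_eq_abs] at h2
  have h3 := abs_sub_abs_le_abs_sub (U x) (U 0)
  have := norm_nonneg x
  have := norm_nonneg (fderiv ℝ U 0)
  have := abs_nonneg (U 0)
  nlinarith [mul_nonneg hM0 (norm_nonneg x), mul_nonneg (abs_nonneg (U 0)) (norm_nonneg x),
    mul_nonneg (abs_nonneg (U 0)) (sq_nonneg ‖x‖),
    mul_nonneg (norm_nonneg (fderiv ℝ U 0)) (norm_nonneg x),
    mul_nonneg (norm_nonneg (fderiv ℝ U 0)) (sq_nonneg ‖x‖)]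

/-- the exponential-tailed position law -/
noncomputable def expLaw (X : Type) [NormedAddCommGroup X] [InnerProductSpace ℝ X]
    [FiniteDimensional ℝ X] [MeasurableSpace X] [BorelSpace X] (a : ℝ) : Measure X :=
  volume.tilted (fun x => -a * ‖x‖)

lemma isProb_expLaw {a : ℝ} (ha : 0 < a) : IsProbabilityMeasure (expLaw X a) :=
  isProbabilityMeasure_tilted (integrable_exp_neg_norm ha)

lemma Standing.isProb {U : X → ℝ} (hU : Standing U) : IsProbabilityMeasure (target U) :=
  isProbabilityMeasure_tilted hU.2.1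

lemma integrable_exp_expLaw {a : ℝ} (ha : 0 < a) :
    Integrable (fun x : X => Real.exp (a / 2 * ‖x‖)) (expLaw X a) := by
  rw [expLaw, integrable_tilted_iff (integrable_exp_neg_norm ha)]
  refine (integrable_exp_neg_norm (X := X) (half_pos ha)).congr (ae_of_all _ fun x => ?_)
  simp only [smul_eq_mul, ← Real.exp_add]
  congr 1; ring

lemma klDiv_expLaw {U : X → ℝ} (hU : Standing U) {a : ℝ} (ha : 0 < a) :
    InformationTheory.klDiv (expLaw X a) (target U) ≠ ∞ := by
  have := isProb_expLaw (X := X) ha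
  have hac : expLaw X a ≪ volume := tilted_absolutelyContinuous _ _
  obtain ⟨c, hc0, hc⟩ := poly_le_exp (half_pos ha) 2
  obtain ⟨B, hB0, hB⟩ := hU.growth
  have i1 : Integrable (fun x : X => (1 + ‖x‖) ^ 2) (expLaw X a) :=
    ((integrable_exp_expLaw ha).const_mul c).mono' (Continuous.aestronglyMeasurable (by fun_prop))
      (ae_of_all _ fun x => by
        rw [Real.norm_of_nonneg (sq_nonneg _)]; exact hc _ (norm_nonneg _))
  refine InformationTheory.klDiv_ne_top (hac.trans (absolutelyContinuous_tilted hU.2.1)) ?_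
  refine integrable_llr_tilted_right hac ?_ ?_ hU.2.1
  · exact (i1.const_mul B).mono' (hU.1.continuous.neg.aestronglyMeasurable)
      (ae_of_all _ fun x => by rw [Real.norm_eq_abs, abs_neg]; exact hB x)
  · have h1 := hac.ae_le (log_rnDeriv_tilted_left_self (integrable_exp_neg_norm (X := X) ha))
    refine Integrable.congr (f := fun x : X => -a * ‖x‖ -
      Real.log (∫ x : X, Real.exp (-a * ‖x‖))) ?_ (Filter.EventuallyEq.symm h1)
    refine Integrable.sub (Integrable.const_mul ?_ _) (integrable_const _)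
    exact i1.mono' (Continuous.aestronglyMeasurable (by fun_prop)) (ae_of_all _ fun x => by
      rw [norm_norm]; nlinarith [norm_nonneg x])

lemma expLaw_halfspace {a : ℝ} (ha : 0 < a) (l : X →L[ℝ] ℝ) (hl : ‖l‖ ≤ 1) (e : X)
    (he : ‖e‖ = 1) (hle : l e = 1) :
    ∃ c : ℝ, 0 < c ∧ ∀ R : ℝ, 0 ≤ R →
      ENNReal.ofReal (c * Real.exp (-a * R)) ≤ expLaw X a {x | R ≤ l x} := by
  set Z := ∫ x : X, Real.exp (-a * ‖x‖) with hZ
  have hZ0 : 0 < Z := integral_exp_pos (integrable_exp_neg_norm ha)
  have hb0 : 0 < (volume (Metric.ball (0 : X) 1)).toReal :=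
    ENNReal.toReal_pos (Metric.measure_ball_pos _ _ one_pos).ne' measure_ball_lt_top.ne
  refine ⟨Real.exp (-a * 2) / Z * (volume (Metric.ball (0 : X) 1)).toReal, by positivity,
    fun R hR => ?_⟩
  have hsub : Metric.ball ((R + 1) • e) 1 ⊆ {x | R ≤ l x} := by
    intro x hx
    rw [Metric.mem_ball, dist_eq_norm] at hx
    have h1 : ‖l (x - (R + 1) • e)‖ ≤ 1 := by
      refine (l.le_opNorm _).trans ?_
      nlinarith [norm_nonneg (x - (R + 1) • e), norm_nonneg l]
    rw [map_sub, map_smul, hle, smul_eq_mul, mul_one, Real.norm_eq_abs, abs_le] at h1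
    show R ≤ l x
    linarith [h1.1]
  refine le_trans ?_ (measure_mono hsub)
  rw [expLaw, tilted_apply' _ _ measurableSet_ball]
  calc _ = ENNReal.ofReal (Real.exp (-a * (R + 2)) / Z) *
        volume (Metric.ball ((R + 1) • e) 1) := by
        have hb : volume (Metric.ball ((R + 1) • e) 1) =
            ENNReal.ofReal (volume (Metric.ball (0 : X) 1)).toReal := by
          rw [ENNReal.ofReal_toReal measure_ball_lt_top.ne]
          exact Measure.addHaar_ball_center _ _ _
        rw [hb, ← ENNReal.ofReal_mul (by positivity)]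
        congr 1
        rw [mul_add, Real.exp_add]; ring
    _ = ∫⁻ _ in Metric.ball ((R + 1) • e) 1, ENNReal.ofReal (Real.exp (-a * (R + 2)) / Z) := by
        rw [setLIntegral_const]
    _ ≤ _ := by
        refine setLIntegral_mono' measurableSet_ball fun x hx => ?_
        rw [Metric.mem_ball, dist_eq_norm] at hx
        have h1 : ‖x‖ ≤ R + 2 := by
          have h2 := norm_sub_norm_le x ((R + 1) • e)
          rw [norm_smul, he, Real.norm_of_nonneg (by linarith)] at h2
          linarith
        apply ENNReal.ofReal_le_ofReal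
        exact div_le_div_of_nonneg_right (Real.exp_le_exp.mpr (by nlinarith)) hZ0.le

end Pool.Agent.Lib.MP_2024f4_pr
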