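import Mathlib
import Pool.Agent.Lib.MP_2024f4_pr.Tail

set_option autoImplicit false
set_option linter.unusedSectionVars false

open MeasureTheory ProbabilityTheory Set Filter Topology
open scoped ENNReal

namespace Pool.Agent.Lib.MP_2024f4_pr

lemma psi_le (y : ℝ) (hy : 0 ≤ y) :
    y ^ 2 * Real.log (y ^ 2) - y ^ 2 + 1 ≤ (y - 1) ^ 2 * (5 + 8 * Real.log (1 + y)) := by
  have hl : 0 ≤ Real.log (1 + y) := Real.log_nonneg (by linarith)
  rcases hy.eq_or_lt with rfl | hy0
  · simp
  have h2 : Real.log (y ^ 2) = 2 * Real.log y := by rw [Real.log_pow]; norm_num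
  rw [h2]
  rcases le_total y 2 with h | h
  · have h1 := Real.log_le_sub_one_of_pos hy0
    have h3 : y ^ 2 * (2 * Real.log y) ≤ y ^ 2 * (2 * (y - 1)) := by gcongr
    nlinarith [mul_nonneg (sq_nonneg (y - 1)) hl, mul_nonneg (sq_nonneg (y - 1)) (sub_nonneg.mpr h)]
  · have h1 : Real.log y ≤ Real.log (1 + y) := Real.log_le_log hy0 (by linarith)
    have h3 : 0 ≤ Real.log y := Real.log_nonneg (by linarith)
    have h4 : y ^ 2 ≤ 4 * (y - 1) ^ 2 := by nlinarith
    have h5 : y ^ 2 * (2 * Real.log y) ≤ 4 * (y - 1) ^ 2 * (2 * Real.log (1 + y)) := by gcongr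
    nlinarith [sq_nonneg (y - 1)]

lemma phi_le (u c s : ℝ) (hs : 0 < s) :
    u ^ 2 * Real.log (u ^ 2) - u ^ 2 * Real.log (c ^ 2 + s ^ 2) - u ^ 2 + (c ^ 2 + s ^ 2) ≤
      (2 * (u - c) ^ 2 + 2 * s ^ 2) * (5 + 8 * Real.log (2 + |u - c| / s)) := by
  set σ := Real.sqrt (c ^ 2 + s ^ 2) with hσ
  have hk : 0 < c ^ 2 + s ^ 2 := by positivity
  have hσ0 : 0 < σ := Real.sqrt_pos.mpr hk
  have hσ2 : σ ^ 2 = c ^ 2 + s ^ 2 := Real.sq_sqrt hk.le
  have hcσ : |c| ≤ σ := Real.abs_le_sqrt (by nlinarith)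
  have hsσ : s ≤ σ := (le_abs_self s).trans (Real.abs_le_sqrt (by nlinarith))
  have h1 := psi_le (|u| / σ) (by positivity)
  have e1 : (|u| / σ) ^ 2 = u ^ 2 / σ ^ 2 := by rw [div_pow, sq_abs]
  have e2 : u ^ 2 * Real.log (u ^ 2) - u ^ 2 * Real.log (c ^ 2 + s ^ 2) - u ^ 2 + (c ^ 2 + s ^ 2) =
      σ ^ 2 * ((|u| / σ) ^ 2 * Real.log ((|u| / σ) ^ 2) - (|u| / σ) ^ 2 + 1) := by
    rw [e1, ← hσ2]
    by_cases hu : u = 0
    · simp [hu]
    · rw [Real.log_div (pow_ne_zero 2 hu) (pow_ne_zero 2 hσ0.ne')]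
      field_simp
  have e3 : σ ^ 2 * (|u| / σ - 1) ^ 2 = (|u| - σ) ^ 2 := by field_simp
  have h2 : (|u| - σ) ^ 2 ≤ 2 * (u - c) ^ 2 + 2 * s ^ 2 := by
    have a1 : (|u| - |c|) ^ 2 ≤ (u - c) ^ 2 := by
      rw [← sq_abs (u - c)]
      exact sq_le_sq' (by linarith [abs_sub_abs_le_abs_sub c u, abs_sub_comm c u])
        (abs_sub_abs_le_abs_sub u c)
    have a2 : (σ - |c|) ^ 2 ≤ s ^ 2 := by nlinarith [abs_nonneg c, sq_abs c]
    nlinarith [sq_nonneg ((|u| - |c|) + (σ - |c|))]
  have h3 : Real.log (1 + |u| / σ) ≤ Real.log (2 + |u - c| / s) := by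
    apply Real.log_le_log (by positivity)
    have a1 : |u| ≤ |c| + |u - c| := by linarith [abs_sub_abs_le_abs_sub u c]
    have a2 : |u| / σ ≤ |c| / σ + |u - c| / σ := by rw [← add_div]; gcongr
    have a3 : |c| / σ ≤ 1 := (div_le_one hσ0).mpr hcσ
    have a4 : |u - c| / σ ≤ |u - c| / s := by gcongr
    linarith
  have hl : 0 ≤ Real.log (1 + |u| / σ) := Real.log_nonneg (by
    have : 0 ≤ |u| / σ := by positivity
    linarith)
  rw [e2]
  calc _ ≤ σ ^ 2 * ((|u| / σ - 1) ^ 2 * (5 + 8 * Real.log (1 + |u| / σ))) := by gcongr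
    _ = (|u| - σ) ^ 2 * (5 + 8 * Real.log (1 + |u| / σ)) := by rw [← e3]; ring
    _ ≤ _ := by gcongr

/-- Gaussian weight -/
noncomputable def gw (x : ℝ) : ℝ := Real.exp (-(x ^ 2 / 2))

lemma gw_pos (x : ℝ) : 0 < gw x := Real.exp_pos _

lemma continuous_gw : Continuous gw := by unfold gw; fun_prop

lemma integrable_poly_gw : Integrable (fun x : ℝ => (1 + x ^ 2) * gw x) := by
  obtain ⟨c, hc0, hc⟩ := poly_le_exp one_pos 2
  refine ((integrable_exp_neg_norm (X := ℝ) one_pos).const_mul (c * Real.exp 2)).mono'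
    (Continuous.aestronglyMeasurable (by unfold gw; fun_prop)) (ae_of_all _ fun x => ?_)
  rw [Real.norm_of_nonneg (mul_nonneg (by positivity) (gw_pos x).le), Real.norm_eq_abs]
  have h1 := hc |x| (abs_nonneg x)
  have h2 : 1 + x ^ 2 ≤ (1 + |x|) ^ 2 := by nlinarith [abs_nonneg x, sq_abs x]
  have h3 : Real.exp (1 * |x|) * gw x ≤ Real.exp 2 * Real.exp (-1 * |x|) := by
    rw [gw, ← Real.exp_add, ← Real.exp_add]
    exact Real.exp_le_exp.mpr (by nlinarith [sq_abs x, sq_nonneg (|x| - 2)])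
  calc (1 + x ^ 2) * gw x ≤ c * Real.exp (1 * |x|) * gw x :=
        mul_le_mul_of_nonneg_right (h2.trans h1) (gw_pos x).le
    _ = c * (Real.exp (1 * |x|) * gw x) := by ring
    _ ≤ c * (Real.exp 2 * Real.exp (-1 * |x|)) := by gcongr
    _ = _ := by ring

lemma integrable_gw : Integrable gw :=
  integrable_poly_gw.mono' continuous_gw.aestronglyMeasurable (ae_of_all _ fun x => by
    rw [Real.norm_of_nonneg (gw_pos x).le]; nlinarith [gw_pos x, sq_nonneg x])

section

variable {f : ℝ → ℝ} (hf : ContDiff ℝ 1 f) (hD : Integrable (fun x => gw x * deriv f x ^ 2))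
  {s Z : ℝ} (hs : 0 < s) (hZ : 0 ≤ Z) (hDs : ∫ x, gw x * deriv f x ^ 2 ≤ Z * s ^ 2)

include hf hD hs hZ hDs

lemma pointwise_bound (x : ℝ) : |f x - f 0| ≤ s * ((Z * Real.exp (x ^ 2 / 2) + |x|) / 2) := by
  have hc : Continuous (deriv f) := hf.continuous_deriv le_rfl
  have h1 : f x - f 0 = ∫ t in (0 : ℝ)..x, deriv f t :=
    (intervalIntegral.integral_deriv_eq_sub (fun t _ => hf.differentiable (by simp) t)
      (hc.intervalIntegrable _ _)).symm
  have h2 : ‖∫ t in (0 : ℝ)..x, deriv f t‖ ≤ ∫ t in uIoc 0 x, ‖deriv f t‖ :=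
    intervalIntegral.norm_integral_le_integral_norm_uIoc
  have hI : ∀ {g : ℝ → ℝ}, Continuous g → IntegrableOn g (uIoc 0 x) := fun hg =>
    intervalIntegrable_iff.mp (hg.intervalIntegrable _ _)
  have h3 : ∫ t in uIoc 0 x, ‖deriv f t‖ ≤
      ∫ t in uIoc 0 x, (Real.exp (x ^ 2 / 2) / (2 * s) * (gw t * deriv f t ^ 2) + s / 2) := by
    refine setIntegral_mono_on (hI hc.norm) (hI ?_) measurableSet_uIoc fun t ht => ?_
    · exact (continuous_const.mul (continuous_gw.mul (hc.pow 2))).add continuous_const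
    · have a1 : t ^ 2 ≤ x ^ 2 := by
        rcases mem_uIoc.mp ht with h | h
        · nlinarith [h.1, h.2]
        · nlinarith [h.1, h.2]
      have a2 : 1 ≤ Real.exp (x ^ 2 / 2) * gw t := by
        rw [gw, ← Real.exp_add]; exact Real.one_le_exp (by linarith)
      have a3 : ‖deriv f t‖ ≤ deriv f t ^ 2 / (2 * s) + s / 2 := by
        rw [Real.norm_eq_abs, ← sq_abs (deriv f t), div_add_div _ _ (by positivity) (by norm_num),
          le_div_iff₀ (by positivity)]
        nlinarith [sq_nonneg (|deriv f t| - s)]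
      have a4 : deriv f t ^ 2 / (2 * s) ≤
          Real.exp (x ^ 2 / 2) / (2 * s) * (gw t * deriv f t ^ 2) := by
        rw [div_mul_eq_mul_div]
        gcongr
        nlinarith [sq_nonneg (deriv f t)]
      linarith
  have h4 : ∫ t in uIoc 0 x, gw t * deriv f t ^ 2 ≤ Z * s ^ 2 :=
    (setIntegral_le_integral hD (ae_of_all _ fun t =>
      mul_nonneg (gw_pos t).le (sq_nonneg _))).trans hDs
  have hI2 : IntegrableOn
      (fun t => Real.exp (x ^ 2 / 2) / (2 * s) * (gw t * deriv f t ^ 2)) (uIoc 0 x) :=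
    hI (continuous_const.mul (continuous_gw.mul (hc.pow 2)))
  rw [integral_add hI2 (hI continuous_const), integral_const_mul, setIntegral_const, measureReal_def,
    Real.volume_uIoc, ENNReal.toReal_ofReal (abs_nonneg _),
    sub_zero, smul_eq_mul] at h3
  rw [h1, ← Real.norm_eq_abs]
  refine h2.trans (h3.trans ?_)
  have h5 : Real.exp (x ^ 2 / 2) / (2 * s) * ∫ t in uIoc 0 x, gw t * deriv f t ^ 2 ≤
      Real.exp (x ^ 2 / 2) / (2 * s) * (Z * s ^ 2) := by gcongr
  have h6 : Real.exp (x ^ 2 / 2) / (2 * s) * (Z * s ^ 2) = s * (Z * Real.exp (x ^ 2 / 2)) / 2 := by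
    field_simp
  linarith

lemma hardy (hZ' : ∫ x, gw x ≤ Z) :
    Integrable (fun x => (f x - f 0) ^ 2 * ((1 + x ^ 2) * gw x)) ∧
    ∫ x, (f x - f 0) ^ 2 * ((1 + x ^ 2) * gw x) ≤
      (10 + 6 * ((Z * Real.exp 2 + 2) / 2) ^ 2) * Z * s ^ 2 := by
  have hc : Continuous (deriv f) := hf.continuous_deriv le_rfl
  have hF : Continuous (fun x => f x - f 0) := hf.continuous.sub continuous_const
  have hg := continuous_gw
  set κ := (Z * Real.exp 2 + 2) / 2 with hκ
  have key : ∀ R : ℝ, 0 ≤ R → ∫ x in (-R)..R, (f x - f 0) ^ 2 * ((1 + x ^ 2) * gw x) ≤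
      (10 + 6 * κ ^ 2) * Z * s ^ 2 := by
    intro R hR
    have hRR : -R ≤ R := by linarith
    set A := ∫ x in (-R)..R, (f x - f 0) ^ 2 * (x ^ 2 * gw x) with hA
    set B := ∫ x in (-R)..R, (f x - f 0) ^ 2 * gw x with hB
    set D := ∫ x in (-R)..R, gw x * deriv f x ^ 2 with hDd
    set G := ∫ x in (-R)..R, gw x with hG
    have iA : IntervalIntegrable (fun x => (f x - f 0) ^ 2 * (x ^ 2 * gw x)) volume (-R) R :=
      Continuous.intervalIntegrable (by fun_prop) _ _
    have iB : IntervalIntegrable (fun x => (f x - f 0) ^ 2 * gw x) volume (-R) R :=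
      Continuous.intervalIntegrable (by fun_prop) _ _
    have iD : IntervalIntegrable (fun x => gw x * deriv f x ^ 2) volume (-R) R :=
      Continuous.intervalIntegrable (by fun_prop) _ _
    have iG : IntervalIntegrable gw volume (-R) R := hg.intervalIntegrable _ _
    have hD' : D ≤ Z * s ^ 2 := by
      rw [hDd, intervalIntegral.integral_of_le hRR]
      exact (setIntegral_le_integral hD (ae_of_all _ fun t =>
        mul_nonneg (gw_pos t).le (sq_nonneg _))).trans hDs
    have hG' : G ≤ Z := by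
      rw [hG, intervalIntegral.integral_of_le hRR]
      exact (setIntegral_le_integral integrable_gw (ae_of_all _ fun t => (gw_pos t).le)).trans hZ'
    have hd : ∀ x, HasDerivAt (fun x => (f x - f 0) ^ 2 * (x * gw x))
        (2 * (f x - f 0) * deriv f x * (x * gw x) +
          (f x - f 0) ^ 2 * (gw x - x ^ 2 * gw x)) x := by
      intro x
      have h1 : HasDerivAt (fun x => (f x - f 0) ^ 2) (2 * (f x - f 0) * deriv f x) x := by
        have := (((hf.differentiable (by simp) x).hasDerivAt).sub_const (f 0)).pow 2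
        refine this.congr_deriv ?_
        simp
      have h2 : HasDerivAt gw (-x * gw x) x := by
        have := (((hasDerivAt_pow 2 x).div_const 2).neg).exp
        refine this.congr_deriv ?_
        simp [gw]; ring
      have h3 := h1.mul ((hasDerivAt_id x).mul h2)
      refine h3.congr_deriv ?_
      simp only [id, Pi.mul_apply]
      ring
    have e1 := intervalIntegral.integral_eq_sub_of_hasDerivAt (a := -R) (b := R)
      (fun x _ => hd x) (Continuous.intervalIntegrable (by fun_prop) _ _)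
    have e2 : 0 ≤ (f R - f 0) ^ 2 * (R * gw R) - (f (-R) - f 0) ^ 2 * (-R * gw (-R)) := by
      have := mul_nonneg (sq_nonneg (f R - f 0)) (mul_nonneg hR (gw_pos R).le)
      have := mul_nonneg (sq_nonneg (f (-R) - f 0)) (mul_nonneg hR (gw_pos (-R)).le)
      linarith
    have e3 : ∫ x in (-R)..R, (2 * (f x - f 0) * deriv f x * (x * gw x) +
          (f x - f 0) ^ 2 * (gw x - x ^ 2 * gw x)) ≤ 2 * D + B - A / 2 := by
      rw [hDd, hB, hA, ← intervalIntegral.integral_const_mul, ← intervalIntegral.integral_div,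
        ← intervalIntegral.integral_add (iD.const_mul 2) iB,
        ← intervalIntegral.integral_sub ((iD.const_mul 2).add iB) (iA.div_const 2)]
      refine intervalIntegral.integral_mono_on hRR (Continuous.intervalIntegrable (by fun_prop) _ _)
        (((iD.const_mul 2).add iB).sub (iA.div_const 2)) fun x _ => ?_
      nlinarith [mul_nonneg (gw_pos x).le (sq_nonneg ((f x - f 0) * x - 2 * deriv f x))]
    have e4 : B ≤ A / 4 + s ^ 2 * κ ^ 2 * G := by
      rw [hB, hA, hG, ← intervalIntegral.integral_const_mul, ← intervalIntegral.integral_div,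
        ← intervalIntegral.integral_add (iA.div_const 4) (iG.const_mul _)]
      refine intervalIntegral.integral_mono_on hRR iB ((iA.div_const 4).add (iG.const_mul _))
        fun x _ => ?_
      have g0 := gw_pos x
      rcases le_total (x ^ 2) 4 with h | h
      · have a1 := pointwise_bound hf hD hs hZ hDs x
        have a2 : |x| ≤ 2 := abs_le_of_sq_le_sq' (by linarith) (by norm_num) |> abs_le.mpr
        have a3 : Real.exp (x ^ 2 / 2) ≤ Real.exp 2 := Real.exp_le_exp.mpr (by linarith)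
        have a4 : |f x - f 0| ≤ s * κ := by
          refine a1.trans ?_
          rw [hκ]; gcongr
        have a5 : (f x - f 0) ^ 2 ≤ s ^ 2 * κ ^ 2 := by
          rw [← sq_abs, ← mul_pow]; exact pow_le_pow_left₀ (abs_nonneg _) a4 2
        have a6 := mul_nonneg (sq_nonneg (f x - f 0)) (mul_nonneg (sq_nonneg x) g0.le)
        nlinarith
      · have a6 := mul_nonneg (mul_nonneg (sq_nonneg s) (sq_nonneg κ)) g0.le
        have a7 := mul_nonneg (mul_nonneg (sq_nonneg (f x - f 0)) g0.le) (sub_nonneg.mpr h)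
        nlinarith
    have e5 : ∫ x in (-R)..R, (f x - f 0) ^ 2 * ((1 + x ^ 2) * gw x) = B + A := by
      rw [hB, hA, ← intervalIntegral.integral_add iB iA]
      congr 1; funext x; ring
    have e6 : s ^ 2 * κ ^ 2 * G ≤ s ^ 2 * κ ^ 2 * Z := by gcongr
    have e7 : 0 ≤ s ^ 2 * κ ^ 2 * Z := by positivity
    rw [e5]
    nlinarith
  have hnn : ∀ x, 0 ≤ (f x - f 0) ^ 2 * ((1 + x ^ 2) * gw x) := fun x =>
    mul_nonneg (sq_nonneg _) (mul_nonneg (by positivity) (gw_pos x).le)
  have hint : Integrable (fun x => (f x - f 0) ^ 2 * ((1 + x ^ 2) * gw x)) := by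
    refine integrable_of_intervalIntegral_norm_bounded (l := atTop) (a := fun R : ℝ => -R)
      (b := fun R => R) ((10 + 6 * κ ^ 2) * Z * s ^ 2)
      (fun R => (Continuous.integrableOn_Icc (by fun_prop)).mono_set Ioc_subset_Icc_self)
      tendsto_neg_atTop_atBot tendsto_id ?_
    filter_upwards [eventually_ge_atTop 0] with R hR
    simp only [Real.norm_of_nonneg (hnn _)]
    exact key R hR
  refine ⟨hint, le_of_tendsto (intervalIntegral_tendsto_integral (l := atTop)
    (a := fun R : ℝ => -R) (b := fun R => R) hint tendsto_neg_atTop_atBot tendsto_id) ?_⟩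
  filter_upwards [eventually_ge_atTop 0] with R hR using key R hR

end

theorem lsi_real : LSI (target (fun x : ℝ => x ^ 2 / 2)) := by
  have hi : Integrable (fun x : ℝ => Real.exp (-(x ^ 2 / 2))) := integrable_gw
  have hp : IsProbabilityMeasure (target (fun x : ℝ => x ^ 2 / 2)) := isProbabilityMeasure_tilted hi
  set p := target (fun x : ℝ => x ^ 2 / 2) with hpdef
  set Z := ∫ x, gw x with hZ
  have hZ0 : 0 < Z := integral_exp_pos hi
  have hint : ∀ g : ℝ → ℝ, Integrable g p ↔ Integrable (fun x => gw x * g x) := fun g =>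
    integrable_tilted_iff hi g
  have hval : ∀ g : ℝ → ℝ, ∫ x, g x ∂p = (∫ x, gw x * g x) / Z := by
    intro g
    rw [hpdef, target, integral_tilted, ← integral_div]
    congr 1; funext x
    show gw x / Z * g x = _
    ring
  set L := 9 + 8 * Real.log (2 + (Z + 1) / 2) with hL
  have hL0 : 0 ≤ Real.log (2 + (Z + 1) / 2) := Real.log_nonneg (by linarith)
  set H := 10 + 6 * ((Z * Real.exp 2 + 2) / 2) ^ 2 with hH
  set M := ∫ x, (1 + x ^ 2) ∂p with hM
  have iM : Integrable (fun x : ℝ => 1 + x ^ 2) p :=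
    (hint _).mpr (integrable_poly_gw.congr (ae_of_all _ fun x => mul_comm _ _))
  refine ⟨L * (H + M), fun f hf i1 i2 i3 => ?_⟩
  have hf1 : ContDiff ℝ 1 f := hf.of_le (by simp)
  have hgr : ∀ x, ‖gradient f x‖ ^ 2 = deriv f x ^ 2 := fun x => by
    rw [gradient_eq_deriv', Real.norm_eq_abs, sq_abs]
  simp only [hgr] at i3 ⊢
  set D := ∫ x, deriv f x ^ 2 ∂p with hDdef
  have hD0 : 0 ≤ D := integral_nonneg fun x => sq_nonneg _
  have hD := (hint _).mp i3
  have key : ∀ s : ℝ, 0 < s → D ≤ s ^ 2 →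
      ∫ x, f x ^ 2 * Real.log (f x ^ 2) ∂p - (∫ x, f x ^ 2 ∂p) * Real.log (∫ x, f x ^ 2 ∂p) ≤
        2 * (L * (H + M)) * s ^ 2 := by
    intro s hs hDs
    have hDs' : ∫ x, gw x * deriv f x ^ 2 ≤ Z * s ^ 2 := by
      rw [hDdef, hval, div_le_iff₀ hZ0] at hDs; linarith
    obtain ⟨j1, j2⟩ := hardy hf1 hD hs hZ0.le hDs' le_rfl
    have iF : Integrable (fun x => (f x - f 0) ^ 2 * (1 + x ^ 2)) p :=
      (hint _).mpr (j1.congr (ae_of_all _ fun x => by ring))
    have vF : ∫ x, (f x - f 0) ^ 2 * (1 + x ^ 2) ∂p ≤ H * s ^ 2 := by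
      rw [hval, div_le_iff₀ hZ0]
      have : ∫ x, gw x * ((f x - f 0) ^ 2 * (1 + x ^ 2)) =
          ∫ x, (f x - f 0) ^ 2 * ((1 + x ^ 2) * gw x) := by congr 1; funext x; ring
      rw [this, hH]; linarith
    set k := f 0 ^ 2 + s ^ 2 with hk
    have hk0 : 0 < k := by positivity
    set m := ∫ x, f x ^ 2 ∂p with hm
    have hm0 : 0 ≤ m := integral_nonneg fun x => sq_nonneg _
    have e1 : -(m * Real.log m) ≤ -(m * Real.log k) - m + k := by
      rcases hm0.eq_or_lt with h | h
      · rw [← h]; simpa using hk0.le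
      · have := Real.log_le_sub_one_of_pos (div_pos hk0 h)
        rw [Real.log_div hk0.ne' h.ne'] at this
        have h2 := mul_le_mul_of_nonneg_left this h.le
        rw [mul_sub m (k / m), mul_div_cancel₀ _ h.ne'] at h2
        linarith
    have e2 : ∀ x, f x ^ 2 * Real.log (f x ^ 2) - f x ^ 2 * Real.log k - f x ^ 2 + k ≤
        2 * L * ((f x - f 0) ^ 2 * (1 + x ^ 2)) + 2 * L * s ^ 2 * (1 + x ^ 2) := by
      intro x
      refine (phi_le (f x) (f 0) s hs).trans ?_
      have a1 := pointwise_bound hf1 hD hs hZ0.le hDs' x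
      have a2 : |x| ≤ Real.exp (x ^ 2 / 2) := by
        have := Real.add_one_le_exp (x ^ 2 / 2)
        nlinarith [sq_abs x, sq_nonneg (|x| - 1)]
      have a3 : 1 ≤ Real.exp (x ^ 2 / 2) := Real.one_le_exp (by positivity)
      have a4 : |f x - f 0| / s ≤ (Z * Real.exp (x ^ 2 / 2) + |x|) / 2 := by
        rw [div_le_iff₀ hs]; linarith
      have a5 : Real.log (2 + |f x - f 0| / s) ≤ Real.log (2 + (Z + 1) / 2) + x ^ 2 / 2 := by
        rw [← Real.log_exp (x ^ 2 / 2), ← Real.log_mul (by positivity) (Real.exp_pos _).ne']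
        apply Real.log_le_log (by positivity)
        nlinarith
      have a6 : 5 + 8 * Real.log (2 + |f x - f 0| / s) ≤ L * (1 + x ^ 2) := by
        rw [hL]; nlinarith [sq_nonneg x, mul_nonneg hL0 (sq_nonneg x)]
      calc _ ≤ (2 * (f x - f 0) ^ 2 + 2 * s ^ 2) * (L * (1 + x ^ 2)) := by gcongr
        _ = _ := by ring
    have n1 : Integrable (fun x => f x ^ 2 * Real.log k) p := i1.mul_const _
    have n2 : Integrable (fun x => f x ^ 2 * Real.log (f x ^ 2) - f x ^ 2 * Real.log k) p :=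
      i2.sub n1
    have n3 : Integrable
        (fun x => f x ^ 2 * Real.log (f x ^ 2) - f x ^ 2 * Real.log k - f x ^ 2) p := n2.sub i1
    have n4 : Integrable (fun x => 2 * L * ((f x - f 0) ^ 2 * (1 + x ^ 2))) p := iF.const_mul _
    have n5 : Integrable (fun x : ℝ => 2 * L * s ^ 2 * (1 + x ^ 2)) p := iM.const_mul _
    have e3 : ∫ x, (f x ^ 2 * Real.log (f x ^ 2) - f x ^ 2 * Real.log k - f x ^ 2 + k) ∂p ≤
        ∫ x, (2 * L * ((f x - f 0) ^ 2 * (1 + x ^ 2)) + 2 * L * s ^ 2 * (1 + x ^ 2)) ∂p :=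
      integral_mono (n3.add (integrable_const k)) (n4.add n5) e2
    rw [integral_add n3 (integrable_const k), integral_sub n2 i1, integral_sub i2 n1,
      integral_mul_const, integral_add n4 n5, integral_const_mul,
      integral_const_mul, integral_const, probReal_univ, one_smul] at e3
    have hL1 : 0 ≤ L := by rw [hL]; linarith
    have e4 : 2 * L * ∫ x, (f x - f 0) ^ 2 * (1 + x ^ 2) ∂p ≤ 2 * L * (H * s ^ 2) := by gcongr
    rw [← hm, ← hM] at e3
    nlinarith
  have hlim : Tendsto (fun ε : ℝ => 2 * (L * (H + M)) * (D + ε)) (𝓝[>] 0)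
      (𝓝 (2 * (L * (H + M)) * (D + 0))) :=
    Tendsto.mono_left (Continuous.tendsto (by fun_prop) 0) nhdsWithin_le_nhds
  rw [add_zero] at hlim
  refine ge_of_tendsto hlim (eventually_nhdsWithin_of_forall fun ε (hε : 0 < ε) => ?_)
  have h1 : 0 < D + ε := by linarith
  have := key (Real.sqrt (D + ε)) (Real.sqrt_pos.mpr h1) (by rw [Real.sq_sqrt h1.le]; linarith)
  rwa [Real.sq_sqrt h1.le] at this

section transfer

variable {X Y : Type} [NormedAddCommGroup X] [InnerProductSpace ℝ X] [FiniteDimensional ℝ X]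
  [MeasurableSpace X] [BorelSpace X] [NormedAddCommGroup Y] [InnerProductSpace ℝ Y]
  [FiniteDimensional ℝ Y] [MeasurableSpace Y] [BorelSpace Y]

lemma LSI.map {p : Measure X} {q : Measure Y} (hp : LSI p) (φ : X ≃ₗᵢ[ℝ] Y)
    (hφ : MeasurePreserving φ p q) : LSI q := by
  obtain ⟨C, hC⟩ := hp
  have hemb : MeasurableEmbedding φ := φ.toHomeomorph.measurableEmbedding
  refine ⟨C, fun f hf i1 i2 i3 => ?_⟩
  have hg : ∀ x, ‖gradient (f ∘ φ) x‖ = ‖gradient f (φ x)‖ := by
    intro x
    rw [gradient, gradient, LinearIsometryEquiv.norm_map, LinearIsometryEquiv.norm_map]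
    have h1 : fderiv ℝ (f ∘ φ) x = (fderiv ℝ f (φ x)).comp (φ : X →L[ℝ] Y) :=
      φ.toContinuousLinearEquiv.comp_right_fderiv
    rw [h1]
    exact ContinuousLinearMap.opNorm_comp_linearIsometryEquiv _ φ
  have := hC (f ∘ φ) (hf.comp φ.contDiff) ((hφ.integrable_comp_emb hemb).mpr i1)
    ((hφ.integrable_comp_emb hemb).mpr i2) (by
      simp only [hg]; exact (hφ.integrable_comp_emb hemb).mpr i3)
  simp only [hg] at this
  rw [← hφ.integral_comp hemb, ← hφ.integral_comp hemb, ← hφ.integral_comp hemb]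
  exact this

lemma target_map (U : Y → ℝ) (hU : Measurable U) (φ : X ≃ₗᵢ[ℝ] Y) :
    MeasurePreserving φ (target (U ∘ φ)) (target U) := by
  have hemb : MeasurableEmbedding φ := φ.toHomeomorph.measurableEmbedding
  refine ⟨φ.continuous.measurable, ?_⟩
  ext s hs
  rw [Measure.map_apply φ.continuous.measurable hs, target, target,
    tilted_apply' _ _ (φ.continuous.measurable hs), tilted_apply' _ _ hs,
    ← φ.measurePreserving.setLIntegral_comp_preimage hs (by fun_prop),
    ← φ.measurePreserving.integral_comp hemb]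
  rfl

lemma standing_gauss : Standing (fun x : X => ‖x‖ ^ 2 / 2) := by
  refine ⟨(contDiff_norm_sq ℝ).div_const 2, ?_, 1, fun x => ?_⟩
  · refine ((integrable_exp_neg_norm (X := X) one_pos).const_mul (Real.exp 1)).mono'
      (Continuous.aestronglyMeasurable (by fun_prop)) (ae_of_all _ fun x => ?_)
    rw [Real.norm_of_nonneg (Real.exp_nonneg _), ← Real.exp_add]
    exact Real.exp_le_exp.mpr (by nlinarith [sq_nonneg (‖x‖ - 1)])
  · have h1 : fderiv ℝ (fun x : X => ‖x‖ ^ 2 / 2) = innerSL ℝ := by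
      funext y
      have := ((hasStrictFDerivAt_norm_sq y).hasFDerivAt.const_mul (1 / 2 : ℝ)).fderiv
      have h2 : (fun x : X => ‖x‖ ^ 2 / 2) = fun x => 1 / 2 * ‖x‖ ^ 2 := by funext x; ring
      rw [h2, this]
      ext z; simp
    rw [← norm_iteratedFDeriv_fderiv, norm_iteratedFDeriv_one, h1, ContinuousLinearMap.fderiv]
    exact norm_innerSL_le ℝ

end transfer

theorem lsi_euc : LSI (target (fun x : Euc 1 => ‖x‖ ^ 2 / 2)) := by
  let φ : ℝ ≃ₗᵢ[ℝ] Euc 1 := (OrthonormalBasis.singleton (Fin 1) ℝ).repr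
  refine LSI.map ?_ φ (target_map _ (by fun_prop) φ)
  have : (fun x : Euc 1 => ‖x‖ ^ 2 / 2) ∘ φ = fun x : ℝ => x ^ 2 / 2 := by
    funext x
    simp only [Function.comp, LinearIsometryEquiv.norm_map, Real.norm_eq_abs, sq_abs]
  rw [this]
  exact lsi_real

end Pool.Agent.Lib.MP_2024f4_pr
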