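import Mathlib
import Pool.Agent.Lib.MP_2024f4_pr.Defs

set_option autoImplicit false
set_option linter.unusedSectionVars false

open MeasureTheory ProbabilityTheory Set
open scoped ENNReal

namespace Pool.Agent.Lib.MP_2024f4_pr

variable {X : Type} [NormedAddCommGroup X] [NormedSpace ℝ X] [MeasurableSpace X] [BorelSpace X]
  [SecondCountableTopology X]

/-- regularity of a jump intensity with total rate `r` -/
structure Reg (N : X × X → Measure (X × X)) (r : X × X → ℝ) : Prop where
  meas : Measurable N
  cont : Continuous r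
  nonneg : ∀ z, 0 ≤ r z
  mass : ∀ z, N z univ = ENNReal.ofReal (r z)

lemma continuous_flow : Continuous (fun p : ℝ × (X × X) => flow p.1 p.2) := by
  unfold flow; fun_prop

lemma meas_comp2 {A B T C : Type} [MeasurableSpace A] [MeasurableSpace B] [MeasurableSpace T]
    [MeasurableSpace C] (F : A → B → C) (hF : Measurable fun p : A × B => F p.1 p.2)
    {f : T → A} {g : T → B} (hf : Measurable f) (hg : Measurable g) :
    Measurable fun q => F (f q) (g q) := hF.comp (hf.prodMk hg)

lemma meas_coe {T E : Type} [MeasurableSpace T] [MeasurableSpace E] {F : T → Measure E}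
    (hF : Measurable F) {A : Set E} (hA : MeasurableSet A) : Measurable fun q => F q A :=
  (Measure.measurable_coe hA).comp hF

lemma cont_rate {r : X × X → ℝ} (hr : Continuous r) (z : X × X) :
    Continuous (fun s : ℝ => r (flow s z)) :=
  hr.comp (continuous_flow.comp (continuous_id.prodMk continuous_const))

lemma measurable_lintegral_fin {E T : Type} [MeasurableSpace E] [MeasurableSpace T]
    (N : T → Measure E) (hN : Measurable N) (hfin : ∀ q, N q univ ≠ ∞)
    (F : T × E → ℝ≥0∞) (hF : Measurable F) : Measurable (fun q => ∫⁻ z, F (q, z) ∂N q) := by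
  have hm : Measurable (fun q => N q univ) := (Measure.measurable_coe MeasurableSet.univ).comp hN
  let κ : Kernel T E := ⟨fun q => (N q univ)⁻¹ • N q, by
    apply Measure.measurable_of_measurable_coe
    intro s hs
    simp only [Measure.smul_apply, smul_eq_mul]
    exact hm.inv.mul ((Measure.measurable_coe hs).comp hN)⟩
  have : IsFiniteKernel κ := ⟨⟨1, ENNReal.one_lt_top, fun q => by
    show ((N q univ)⁻¹ • N q) univ ≤ 1
    rw [Measure.smul_apply, smul_eq_mul]
    exact ENNReal.inv_mul_le_one _⟩⟩
  have h1 : Measurable (fun q => ∫⁻ z, F (q, z) ∂κ q) := hF.lintegral_kernel_prod_right'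
  have h2 : (fun q => ∫⁻ z, F (q, z) ∂N q) = fun q => N q univ * ∫⁻ z, F (q, z) ∂κ q := by
    funext q
    show _ = N q univ * ∫⁻ z, F (q, z) ∂((N q univ)⁻¹ • N q)
    rw [lintegral_smul_measure, smul_eq_mul, ← mul_assoc]
    by_cases h0 : N q univ = 0
    · rw [Measure.measure_univ_eq_zero.mp h0]; simp
    · rw [ENNReal.mul_inv_cancel h0 (hfin q), one_mul]
  rw [h2]
  exact hm.mul h1

/-- integrated rate -/
noncomputable def Lam (r : X × X → ℝ) (z : X × X) (t : ℝ) : ℝ := ∫ s in (0 : ℝ)..t, r (flow s z)

variable {N : X × X → Measure (X × X)} {r : X × X → ℝ}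

lemma Reg.surv_eq (h : Reg N r) (z : X × X) (t : ℝ) :
    surv N z t = ENNReal.ofReal (Real.exp (-Lam r z t)) := by
  simp only [surv, Lam, h.mass, ENNReal.toReal_ofReal (h.nonneg _)]

lemma continuous_Lam (hr : Continuous r) : Continuous (fun p : (X × X) × ℝ => Lam r p.1 p.2) := by
  unfold Lam
  apply intervalIntegral.continuous_parametric_primitive_of_continuous
    (f := fun (z : X × X) (s : ℝ) => r (flow s z))
  exact hr.comp (continuous_flow.comp continuous_swap)

lemma Reg.measurable_surv (h : Reg N r) : Measurable (fun p : (X × X) × ℝ => surv N p.1 p.2) := by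
  simp only [h.surv_eq]
  exact ENNReal.measurable_ofReal.comp
    (Real.continuous_exp.comp (continuous_Lam h.cont).neg).measurable

lemma Reg.meas_N (h : Reg N r) {T : Type} [MeasurableSpace T] {f : T → ℝ} {g : T → X × X}
    (hf : Measurable f) (hg : Measurable g) : Measurable fun q => N (flow (f q) (g q)) :=
  h.meas.comp (meas_comp2 flow continuous_flow.measurable hf hg)

lemma Reg.inner_meas (h : Reg N r) (L : ℝ → X × X → Measure (X × X))
    (hL : Measurable (fun p : ℝ × (X × X) => L p.1 p.2)) {T : Type} [MeasurableSpace T]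
    {t s : T → ℝ} {z : T → X × X} (ht : Measurable t) (hs : Measurable s) (hz : Measurable z)
    {A : Set (X × X)} (hA : MeasurableSet A) :
    Measurable (fun q => surv N (z q) (s q) * ∫⁻ w, L (t q - s q) w A ∂N (flow (s q) (z q))) := by
  refine Measurable.mul (meas_comp2 (surv N) h.measurable_surv hz hs) ?_
  refine measurable_lintegral_fin (fun q => N (flow (s q) (z q))) (h.meas_N hs hz) ?_
    (fun w => L (t w.1 - s w.1) w.2 A) ?_
  · intro q; rw [h.mass]; exact ENNReal.ofReal_ne_top
  · exact meas_coe (meas_comp2 L hL (by fun_prop) measurable_snd) hA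

lemma Reg.step_meas (h : Reg N r) (L : ℝ → X × X → Measure (X × X))
    (hL : Measurable (fun p : ℝ × (X × X) => L p.1 p.2)) (t : ℝ) (z : X × X) :
    Measurable (fun s : ℝ => surv N z s • (N (flow s z)).bind (L (t - s))) := by
  apply Measure.measurable_of_measurable_coe
  intro A hA
  have h1 : ∀ t, Measurable (L t) := fun t => meas_comp2 L hL measurable_const measurable_id
  simp only [Measure.smul_apply, smul_eq_mul, Measure.bind_apply hA (h1 _).aemeasurable]
  exact h.inner_meas L hL (t := fun _ => t) (s := fun s => s) (z := fun _ => z)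
    measurable_const measurable_id measurable_const hA

lemma Reg.step_apply (h : Reg N r) (L : ℝ → X × X → Measure (X × X))
    (hL : Measurable (fun p : ℝ × (X × X) => L p.1 p.2)) (t : ℝ) (z : X × X)
    {A : Set (X × X)} (hA : MeasurableSet A) :
    ((volume.restrict (Ioc (0 : ℝ) t)).bind
      (fun s => surv N z s • (N (flow s z)).bind (L (t - s)))) A =
      ∫⁻ s in Ioc (0 : ℝ) t, surv N z s * ∫⁻ w, L (t - s) w A ∂N (flow s z) := by
  have h1 : ∀ t, Measurable (L t) := fun t => meas_comp2 L hL measurable_const measurable_id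
  rw [Measure.bind_apply hA (h.step_meas L hL t z).aemeasurable]
  simp only [Measure.smul_apply, smul_eq_mul, Measure.bind_apply hA (h1 _).aemeasurable]

lemma Reg.measurable_lawN (h : Reg N r) (n : ℕ) :
    Measurable (fun p : ℝ × (X × X) => lawN N n p.1 p.2) := by
  induction n with
  | zero =>
    apply Measure.measurable_of_measurable_coe
    intro A hA
    simp only [lawN, Measure.smul_apply, smul_eq_mul]
    refine Measurable.mul (meas_comp2 (surv N) h.measurable_surv measurable_snd measurable_fst) ?_
    exact meas_coe (Measure.measurable_dirac.comp continuous_flow.measurable) hA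
  | succ n ih =>
    apply Measure.measurable_of_measurable_coe
    intro A hA
    have h2 := h.inner_meas (lawN N n) ih (T := (ℝ × (X × X)) × ℝ) (t := fun q => q.1.1)
      (s := fun q => q.2) (z := fun q => q.1.2) (by fun_prop) (by fun_prop) (by fun_prop) hA
    have h3 : ∀ p : ℝ × (X × X), lawN N (n + 1) p.1 p.2 A =
        ∫⁻ s, ({q : (ℝ × (X × X)) × ℝ | 0 < q.2 ∧ q.2 ≤ q.1.1}.indicator
          (fun q => surv N q.1.2 q.2 * ∫⁻ w, lawN N n (q.1.1 - q.2) w A ∂N (flow q.2 q.1.2)))
            (p, s) := by
      intro p
      rw [lawN, h.step_apply _ ih _ _ hA, ← lintegral_indicator measurableSet_Ioc]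
      refine lintegral_congr fun s => ?_
      simp only [indicator, mem_Ioc, mem_ofPred_eq]
    simp only [h3]
    refine Measurable.lintegral_prod_right' (Measurable.indicator h2 ?_)
    exact (measurableSet_lt measurable_const measurable_snd).inter
      (measurableSet_le measurable_snd (measurable_fst.comp measurable_fst))

/-- the transition function -/
noncomputable def W (N : X × X → Measure (X × X)) (t : ℝ) (z : X × X) : Measure (X × X) :=
  Measure.sum (fun n => lawN N n t z)

lemma Reg.measurable_W (h : Reg N r) : Measurable (fun p : ℝ × (X × X) => W N p.1 p.2) := by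
  apply Measure.measurable_of_measurable_coe
  intro A hA
  simp only [W, Measure.sum_apply _ hA]
  exact Measurable.tsum fun n => meas_coe (h.measurable_lawN n) hA

lemma Reg.lawN_succ (h : Reg N r) (n : ℕ) (t : ℝ) (z : X × X) {A : Set (X × X)}
    (hA : MeasurableSet A) : lawN N (n + 1) t z A =
      ∫⁻ s in Ioc (0 : ℝ) t, surv N z s * ∫⁻ w, lawN N n (t - s) w A ∂N (flow s z) := by
  rw [lawN]; exact h.step_apply _ (h.measurable_lawN n) t z hA

lemma Reg.meas_inner (h : Reg N r) (L : ℝ → X × X → Measure (X × X))
    (hL : Measurable (fun p : ℝ × (X × X) => L p.1 p.2)) (t : ℝ) (z : X × X)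
    {A : Set (X × X)} (hA : MeasurableSet A) :
    Measurable (fun s => surv N z s * ∫⁻ w, L (t - s) w A ∂N (flow s z)) :=
  h.inner_meas L hL (t := fun _ => t) (s := fun s => s) (z := fun _ => z)
    measurable_const measurable_id measurable_const hA

/-- first-jump equation -/
lemma Reg.W_eq (h : Reg N r) (t : ℝ) (z : X × X) {A : Set (X × X)} (hA : MeasurableSet A) :
    W N t z A = surv N z t * Measure.dirac (flow t z) A +
      ∫⁻ s in Ioc (0 : ℝ) t, surv N z s * ∫⁻ w, W N (t - s) w A ∂N (flow s z) := by
  rw [W, Measure.sum_apply _ hA, tsum_eq_zero_add' ENNReal.summable]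
  congr 1
  simp only [h.lawN_succ _ _ _ hA]
  rw [← lintegral_tsum fun n => (h.meas_inner _ (h.measurable_lawN n) t z hA).aemeasurable]
  refine lintegral_congr fun s => ?_
  rw [ENNReal.tsum_mul_left, ← lintegral_tsum]
  · simp only [W, Measure.sum_apply _ hA]
  · intro n
    exact (meas_coe (meas_comp2 (lawN N n) (h.measurable_lawN n) measurable_const measurable_id)
      hA).aemeasurable

lemma hasDerivAt_Lam (hr : Continuous r) (z : X × X) (s : ℝ) :
    HasDerivAt (Lam r z) (r (flow s z)) s := by
  have hc : Continuous (fun s : ℝ => r (flow s z)) :=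
    hr.comp (continuous_flow.comp (continuous_id.prodMk continuous_const))
  exact hc.deriv_integral _ _ _ ▸ (intervalIntegral.integral_hasDerivAt_right
    (hc.intervalIntegrable _ _) (hc.stronglyMeasurableAtFilter _ _)
    hc.continuousAt).differentiableAt.hasDerivAt

lemma ftc_identity (hr : Continuous r) (z : X × X) (δ t : ℝ) :
    ∫ s in (0 : ℝ)..t, Real.exp (-Lam r z s) * ((r (flow s z) - δ) * Real.exp (-δ * (t - s))) =
      Real.exp (-δ * t) - Real.exp (-Lam r z t) := by
  have hc : Continuous (fun s : ℝ => r (flow s z)) :=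
    hr.comp (continuous_flow.comp (continuous_id.prodMk continuous_const))
  have hL : Continuous (Lam r z) :=
    (continuous_Lam hr).comp (continuous_const.prodMk continuous_id)
  have hd : ∀ s, HasDerivAt (fun s => -(Real.exp (-Lam r z s) * Real.exp (-δ * (t - s))))
      (Real.exp (-Lam r z s) * ((r (flow s z) - δ) * Real.exp (-δ * (t - s)))) s := by
    intro s
    have h1 := (hasDerivAt_Lam hr z s).neg.exp
    have h2 : HasDerivAt (fun s => Real.exp (-δ * (t - s))) (Real.exp (-δ * (t - s)) * δ) s := by
      have := (((hasDerivAt_id s).const_sub t).const_mul (-δ)).exp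
      simpa using this
    refine (h1.mul h2).neg.congr_deriv ?_
    simp only [Pi.neg_apply]
    ring
  rw [intervalIntegral.integral_eq_sub_of_hasDerivAt (fun s _ => hd s)
    (Continuous.intervalIntegrable ((Real.continuous_exp.comp hL.neg).mul
      ((hc.sub continuous_const).mul (by fun_prop))) _ _)]
  simp [Lam]
  ring

lemma Reg.sum_le_one (h : Reg N r) (n : ℕ) :
    ∀ t, 0 ≤ t → ∀ z, ∑ k ∈ Finset.range n, lawN N k t z univ ≤ 1 := by
  induction n with
  | zero => simp
  | succ n ih =>
    intro t ht z
    have hc : Continuous (fun s : ℝ => r (flow s z)) :=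
      h.cont.comp (continuous_flow.comp (continuous_id.prodMk continuous_const))
    have hL : Continuous (Lam r z) :=
      (continuous_Lam h.cont).comp (continuous_const.prodMk continuous_id)
    rw [Finset.sum_range_succ']
    simp only [h.lawN_succ _ _ _ MeasurableSet.univ]
    rw [← lintegral_finsetSum _
      fun k _ => h.meas_inner _ (h.measurable_lawN k) t z MeasurableSet.univ]
    have h1 : ∫⁻ s in Ioc (0 : ℝ) t, ∑ k ∈ Finset.range n,
        surv N z s * ∫⁻ w, lawN N k (t - s) w univ ∂N (flow s z) ≤
        ∫⁻ s in Ioc (0 : ℝ) t, ENNReal.ofReal (Real.exp (-Lam r z s) * r (flow s z)) := by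
      refine setLIntegral_mono' measurableSet_Ioc fun s hs => ?_
      rw [← Finset.mul_sum, ← lintegral_finsetSum, h.surv_eq,
        ENNReal.ofReal_mul (Real.exp_nonneg _), ← h.mass]
      · gcongr
        calc _ ≤ ∫⁻ _, 1 ∂N (flow s z) := lintegral_mono fun w => ih _ (by linarith [hs.2]) w
          _ = _ := by simp
      · intro k _
        exact meas_coe (meas_comp2 (lawN N k) (h.measurable_lawN k) measurable_const
          measurable_id) MeasurableSet.univ
    have h2 : ∫⁻ s in Ioc (0 : ℝ) t, ENNReal.ofReal (Real.exp (-Lam r z s) * r (flow s z)) =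
        ENNReal.ofReal (1 - Real.exp (-Lam r z t)) := by
      have h3 := ftc_identity h.cont z 0 t
      simp only [sub_zero, neg_zero, zero_mul, Real.exp_zero, mul_one] at h3
      rw [← h3, intervalIntegral.integral_of_le ht, ofReal_integral_eq_lintegral_ofReal]
      · exact (Continuous.integrableOn_Icc ((Real.continuous_exp.comp hL.neg).mul hc)).mono_set
          Ioc_subset_Icc_self
      · exact ae_of_all _ fun s => mul_nonneg (Real.exp_nonneg _) (h.nonneg _)
    have h4 : 0 ≤ Lam r z t := intervalIntegral.integral_nonneg ht fun s _ => h.nonneg _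
    have h5 : Real.exp (-Lam r z t) ≤ 1 := Real.exp_le_one_iff.mpr (by linarith)
    have h6 : lawN N 0 t z univ = ENNReal.ofReal (Real.exp (-Lam r z t)) := by
      simp [lawN, h.surv_eq]
    rw [h6]
    refine (add_le_add_left (h1.trans h2.le) _).trans ?_
    rw [← ENNReal.ofReal_add (by linarith) (Real.exp_nonneg _)]
    simp

lemma Reg.W_le_one (h : Reg N r) (t : ℝ) (ht : 0 ≤ t) (z : X × X) : W N t z univ ≤ 1 := by
  rw [W, Measure.sum_apply _ MeasurableSet.univ]
  exact ENNReal.tsum_le_of_sum_range_le fun n => h.sum_le_one n t ht z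

end Pool.Agent.Lib.MP_2024f4_pr
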