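import Mathlib
import Pool.Agent.Lib.MP_2024f4_pr.Pdmp

set_option autoImplicit false
set_option linter.unusedSectionVars false

open MeasureTheory ProbabilityTheory Set Filter Topology
open scoped ENNReal

namespace Pool.Agent.Lib.MP_2024f4_pr

variable {X : Type} [NormedAddCommGroup X] [NormedSpace ℝ X] [MeasurableSpace X] [BorelSpace X]
  [SecondCountableTopology X] [ProperSpace X]

variable {N : X × X → Measure (X × X)} {r : X × X → ℝ}

/-- jumps keep the position, and keep the speed below `V` except at rate `δ` -/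
structure Good (N : X × X → Measure (X × X)) (r : X × X → ℝ) (V δ : ℝ) : Prop where
  V_nonneg : 0 ≤ V
  δ_nonneg : 0 ≤ δ
  δ_le : ∀ z, δ ≤ r z
  slow : ∀ z : X × X, ‖z.2‖ ≤ V →
    ENNReal.ofReal (r z - δ) ≤ N z {w | w.1 = z.1 ∧ ‖w.2‖ ≤ V}

lemma ofReal_integral_le (t : ℝ) (ht : 0 ≤ t) (g : ℝ → ℝ) (hg : Continuous g) :
    ENNReal.ofReal (∫ s in (0 : ℝ)..t, g s) ≤ ∫⁻ s in Ioc (0 : ℝ) t, ENNReal.ofReal (g s) := by
  have h1 : ∫ s in (0 : ℝ)..t, g s ≤ ∫ s in (0 : ℝ)..t, max (g s) 0 :=
    intervalIntegral.integral_mono_on ht (hg.intervalIntegrable _ _)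
      ((hg.max continuous_const).intervalIntegrable _ _) fun s _ => le_max_left _ _
  refine (ENNReal.ofReal_le_ofReal h1).trans ?_
  rw [intervalIntegral.integral_of_le ht, ofReal_integral_eq_lintegral_ofReal]
  · refine le_of_eq (lintegral_congr fun s => ?_)
    rw [ENNReal.ofReal_max]; simp
  · exact (Continuous.integrableOn_Icc (hg.max continuous_const)).mono_set Ioc_subset_Icc_self
  · exact ae_of_all _ fun s => le_max_right _ _

lemma Reg.lower (h : Reg N r) {V δ : ℝ} (hG : Good N r V δ) (x₀ : X) (T : ℝ)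
    {A : Set (X × X)} (hA : MeasurableSet A) (hsub : ∀ w : X × X, ‖w.1 - x₀‖ ≤ V * T → w ∈ A)
    (t : ℝ) (z : X × X) (ht : 0 ≤ t) (htT : t ≤ T) (hv : ‖z.2‖ ≤ V)
    (hx : ‖z.1 - x₀‖ ≤ V * (T - t)) : ENNReal.ofReal (Real.exp (-δ * t)) ≤ W N t z A := by
  have hV := hG.V_nonneg
  have hT : 0 ≤ T := ht.trans htT
  obtain ⟨M, hM⟩ : ∃ M : ℝ, ∀ w ∈ Metric.closedBall x₀ (V * T) ×ˢ Metric.closedBall (0 : X) V,
      ‖r w‖ ≤ M := ((isCompact_closedBall _ _).prod (isCompact_closedBall _ _)).exists_bound_of_continuousOn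
        h.cont.continuousOn
  have hflow : ∀ (t s : ℝ) (z : X × X), 0 ≤ s → ‖z.2‖ ≤ V → ‖z.1 - x₀‖ ≤ V * (T - t) →
      ‖(flow s z).1 - x₀‖ ≤ V * (T - (t - s)) := by
    intro t s z hs hv hx
    have : (flow s z).1 - x₀ = (z.1 - x₀) + s • z.2 := by simp only [flow]; abel
    rw [this]
    refine (norm_add_le _ _).trans ?_
    rw [norm_smul, Real.norm_of_nonneg hs]
    nlinarith [mul_le_mul_of_nonneg_left hv hs]
  have hM0 : 0 ≤ M := by
    refine (norm_nonneg _).trans (hM (x₀, 0) ⟨?_, ?_⟩)
    · exact Metric.mem_closedBall_self (mul_nonneg hV hT)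
    · exact Metric.mem_closedBall_self hV
  set q := 1 - Real.exp (-(M * T)) with hq
  have hq0 : 0 ≤ q := by
    have : Real.exp (-(M * T)) ≤ 1 := Real.exp_le_one_iff.mpr (by nlinarith)
    linarith
  have hq1 : q < 1 := by have := Real.exp_pos (-(M * T)); linarith
  have key : ∀ k : ℕ, ∀ (t : ℝ) (z : X × X), 0 ≤ t → t ≤ T → ‖z.2‖ ≤ V →
      ‖z.1 - x₀‖ ≤ V * (T - t) → ENNReal.ofReal (Real.exp (-δ * t) - q ^ k) ≤ W N t z A := by
    intro k
    induction k with
    | zero =>
      intro t z ht _ _ _
      have : Real.exp (-δ * t) ≤ 1 := Real.exp_le_one_iff.mpr (by nlinarith [hG.δ_nonneg])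
      rw [ENNReal.ofReal_of_nonpos (by linarith [pow_zero q])]
      exact zero_le
    | succ k ih =>
      intro t z ht htT hv hx
      have hc := cont_rate h.cont z
      have hL : Continuous (Lam r z) :=
        (continuous_Lam h.cont).comp (continuous_const.prodMk continuous_id)
      have hE : Continuous (fun s => Real.exp (-Lam r z s)) := Real.continuous_exp.comp hL.neg
      rw [h.W_eq t z hA]
      have h1 : Measure.dirac (flow t z) A = 1 := by
        apply Measure.dirac_apply_of_mem
        apply hsub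
        simpa using hflow t t z ht hv hx
      rw [h1, mul_one, h.surv_eq]
      let g : ℝ → ℝ := fun s => Real.exp (-Lam r z s) *
        ((r (flow s z) - δ) * (Real.exp (-δ * (t - s)) - q ^ k))
      have hg : Continuous g := hE.mul ((hc.sub continuous_const).mul (by fun_prop))
      have h2 : ∫⁻ s in Ioc (0 : ℝ) t, ENNReal.ofReal (g s) ≤
          ∫⁻ s in Ioc (0 : ℝ) t, surv N z s * ∫⁻ w, W N (t - s) w A ∂N (flow s z) := by
        refine setLIntegral_mono' measurableSet_Ioc fun s hs => ?_
        simp only [g]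
        rw [h.surv_eq, ENNReal.ofReal_mul (Real.exp_nonneg _),
          ENNReal.ofReal_mul (sub_nonneg.mpr (hG.δ_le _))]
        gcongr
        have hS : MeasurableSet {w : X × X | w.1 = (flow s z).1 ∧ ‖w.2‖ ≤ V} :=
          ((isClosed_eq continuous_fst continuous_const).inter
            (isClosed_le continuous_snd.norm continuous_const)).measurableSet
        calc _ ≤ N (flow s z) {w | w.1 = (flow s z).1 ∧ ‖w.2‖ ≤ V} *
              ENNReal.ofReal (Real.exp (-δ * (t - s)) - q ^ k) := by
              gcongr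
              exact hG.slow (flow s z) hv
          _ = ∫⁻ _ in {w | w.1 = (flow s z).1 ∧ ‖w.2‖ ≤ V},
              ENNReal.ofReal (Real.exp (-δ * (t - s)) - q ^ k) ∂N (flow s z) := by
              rw [setLIntegral_const, mul_comm]
          _ ≤ ∫⁻ w in {w | w.1 = (flow s z).1 ∧ ‖w.2‖ ≤ V}, W N (t - s) w A ∂N (flow s z) := by
              refine setLIntegral_mono' hS fun w hw => ?_
              refine ih (t - s) w (by linarith [hs.2]) (by linarith [hs.1]) hw.2 ?_
              rw [hw.1]
              exact hflow t s z hs.1.le hv hx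
          _ ≤ _ := setLIntegral_le_lintegral _ _
      have h3 := ftc_identity h.cont z δ t
      have h4 := ftc_identity h.cont z 0 t
      simp only [sub_zero, neg_zero, zero_mul, Real.exp_zero, mul_one] at h4
      have h5 : Lam r z t ≤ M * T := by
        have : Lam r z t ≤ ∫ _ in (0 : ℝ)..t, M := by
          refine intervalIntegral.integral_mono_on ht (hc.intervalIntegrable _ _)
            (continuous_const.intervalIntegrable _ _) fun s hs => ?_
          refine (le_abs_self _).trans (hM (flow s z) ⟨?_, ?_⟩)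
          · rw [Metric.mem_closedBall, dist_eq_norm]
            refine (hflow t s z hs.1 hv hx).trans ?_
            nlinarith [hs.2]
          · simpa [flow] using hv
        simp only [intervalIntegral.integral_const, sub_zero, smul_eq_mul] at this
        nlinarith
      have h6 : 1 - Real.exp (-Lam r z t) ≤ q := by
        have : Real.exp (-(M * T)) ≤ Real.exp (-Lam r z t) := Real.exp_le_exp.mpr (by linarith)
        linarith
      have hqk : 0 ≤ q ^ k := pow_nonneg hq0 k
      have h7 : Real.exp (-δ * t) - Real.exp (-Lam r z t) - q ^ k * (1 - Real.exp (-Lam r z t)) ≤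
          ∫ s in (0 : ℝ)..t, g s := by
        rw [← h3, ← h4, ← intervalIntegral.integral_const_mul, ← intervalIntegral.integral_sub]
        · refine intervalIntegral.integral_mono_on ht ?_ (hg.intervalIntegrable _ _) fun s _ => ?_
          · exact Continuous.intervalIntegrable ((hE.mul ((hc.sub continuous_const).mul
              (by fun_prop))).sub (continuous_const.mul (hE.mul hc))) _ _
          · simp only [g]
            have := mul_nonneg (mul_nonneg (Real.exp_nonneg (-Lam r z s)) hG.δ_nonneg) hqk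
            nlinarith
        · exact Continuous.intervalIntegrable (hE.mul ((hc.sub continuous_const).mul
            (by fun_prop))) _ _
        · exact Continuous.intervalIntegrable (continuous_const.mul (hE.mul hc)) _ _
      calc ENNReal.ofReal (Real.exp (-δ * t) - q ^ (k + 1))
          ≤ ENNReal.ofReal (Real.exp (-Lam r z t) + ∫ s in (0 : ℝ)..t, g s) := by
            apply ENNReal.ofReal_le_ofReal
            have := mul_le_mul_of_nonneg_left h6 hqk
            rw [pow_succ]
            linarith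
        _ ≤ ENNReal.ofReal (Real.exp (-Lam r z t)) + ENNReal.ofReal (∫ s in (0 : ℝ)..t, g s) :=
            ENNReal.ofReal_add_le
        _ ≤ _ := by
            gcongr
            exact (ofReal_integral_le t ht g hg).trans h2
  have hlim : Tendsto (fun k : ℕ => ENNReal.ofReal (Real.exp (-δ * t) - q ^ k)) atTop
      (𝓝 (ENNReal.ofReal (Real.exp (-δ * t) - 0))) :=
    ENNReal.tendsto_ofReal (tendsto_const_nhds.sub (tendsto_pow_atTop_nhds_zero_of_lt_one hq0 hq1))
  rw [sub_zero] at hlim
  exact le_of_tendsto' hlim fun k => key k t z ht htT hv hx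

/-- speeds can be confined at an arbitrarily small exponential cost -/
def Confined (N : X × X → Measure (X × X)) (r : X × X → ℝ) : Prop :=
  ∀ ε > 0, ∀ V₀ : ℝ, ∃ V δ, V₀ ≤ V ∧ δ ≤ ε ∧ Good N r V δ

lemma Reg.W_univ (h : Reg N r) (hC : Confined N r) (t : ℝ) (ht : 0 ≤ t) (z : X × X) :
    W N t z univ = 1 := by
  refine le_antisymm (h.W_le_one t ht z) ?_
  have h1 : ∀ ε > 0, ENNReal.ofReal (Real.exp (-ε * t)) ≤ W N t z univ := by
    intro ε hε
    obtain ⟨V, δ, hV, hδ, hG⟩ := hC ε hε ‖z.2‖
    refine le_trans (ENNReal.ofReal_le_ofReal (Real.exp_le_exp.mpr (by nlinarith))) (h.lower hG z.1 t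
      MeasurableSet.univ (fun _ _ => mem_univ _) t z ht le_rfl hV (by simp))
  have h2 : Tendsto (fun ε : ℝ => ENNReal.ofReal (Real.exp (-ε * t))) (𝓝[>] 0)
      (𝓝 (ENNReal.ofReal (Real.exp (-0 * t)))) := by
    refine Tendsto.mono_left (Continuous.tendsto ?_ 0) nhdsWithin_le_nhds
    exact ENNReal.continuous_ofReal.comp (by fun_prop)
  simp only [neg_zero, zero_mul, Real.exp_zero, ENNReal.ofReal_one] at h2
  exact le_of_tendsto h2 (eventually_nhdsWithin_of_forall fun ε hε => h1 ε hε)

lemma Reg.law_apply (h : Reg N r) (p₀ : Measure (X × X)) (t : ℝ) {A : Set (X × X)}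
    (hA : MeasurableSet A) : law N p₀ t A = ∫⁻ z, W N t z A ∂p₀ := by
  have : Measurable (fun z => W N t z) :=
    meas_comp2 (W N) h.measurable_W measurable_const measurable_id
  exact Measure.bind_apply hA this.aemeasurable

lemma Reg.isProb_law (h : Reg N r) (hC : Confined N r) (p₀ : Measure (X × X))
    [IsProbabilityMeasure p₀] (t : ℝ) (ht : 0 ≤ t) : IsProbabilityMeasure (law N p₀ t) := by
  constructor
  rw [h.law_apply p₀ t MeasurableSet.univ]
  simp [h.W_univ hC t ht]

/-- finite speed of propagation, for half-spaces of a 1-Lipschitz linear form -/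
lemma Reg.law_halfspace (h : Reg N r) {V δ : ℝ} (hG : Good N r V δ) (p₀ : Measure (X × X))
    (l : X →L[ℝ] ℝ) (hl : ‖l‖ ≤ 1) (t : ℝ) (ht : 0 ≤ t) (R : ℝ) :
    ENNReal.ofReal (Real.exp (-δ * t)) * p₀ {z | R + V * t ≤ l z.1 ∧ ‖z.2‖ ≤ V} ≤
      law N p₀ t {z | R ≤ l z.1} := by
  have hA : MeasurableSet {z : X × X | R ≤ l z.1} :=
    (isClosed_le continuous_const (l.continuous.comp continuous_fst)).measurableSet
  have hS : MeasurableSet {z : X × X | R + V * t ≤ l z.1 ∧ ‖z.2‖ ≤ V} :=
    ((isClosed_le continuous_const (l.continuous.comp continuous_fst)).inter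
      (isClosed_le continuous_snd.norm continuous_const)).measurableSet
  rw [h.law_apply p₀ t hA, ← setLIntegral_const]
  refine le_trans (setLIntegral_mono' hS fun z hz => ?_) (setLIntegral_le_lintegral _ _)
  refine h.lower hG z.1 t hA (fun w hw => ?_) t z ht le_rfl hz.2 (by simp)
  have h1 : ‖l (w.1 - z.1)‖ ≤ ‖w.1 - z.1‖ := by
    refine (l.le_opNorm _).trans ?_
    nlinarith [norm_nonneg (w.1 - z.1)]
  rw [map_sub, Real.norm_eq_abs, abs_le] at h1
  have := hz.1
  show R ≤ l w.1
  linarith [h1.1]

lemma two_mul_le_klDiv {E : Type} [MeasurableSpace E] (p μ : Measure E) [IsFiniteMeasure p]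
    [IsFiniteMeasure μ] (A : Set E) :
    2 * p A ≤ InformationTheory.klDiv p μ + ENNReal.ofReal (Real.exp 2) * μ A := by
  by_cases hac : p ≪ μ
  swap
  · simp [InformationTheory.klDiv_of_not_ac hac]
  rw [InformationTheory.klDiv_eq_lintegral_klFun_of_ac hac, ← Measure.setLIntegral_rnDeriv hac A,
    ← lintegral_const_mul _ (Measure.measurable_rnDeriv p μ), ← setLIntegral_const]
  have h1 : ∀ x : ℝ, 0 ≤ x → 2 * x ≤ InformationTheory.klFun x + Real.exp 2 := by
    intro x hx
    rw [InformationTheory.klFun_apply]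
    rcases hx.eq_or_lt with rfl | hx
    · have := Real.exp_pos 2; simp; linarith
    · have h2 := Real.add_one_le_exp (2 - Real.log x)
      rw [Real.exp_sub, Real.exp_log hx, le_div_iff₀ hx] at h2
      nlinarith
  calc ∫⁻ a in A, 2 * p.rnDeriv μ a ∂μ
      ≤ ∫⁻ a in A, ENNReal.ofReal (InformationTheory.klFun (p.rnDeriv μ a).toReal) +
          ENNReal.ofReal (Real.exp 2) ∂μ := by
        refine lintegral_mono_ae (ae_restrict_of_ae ?_)
        filter_upwards [Measure.rnDeriv_ne_top p μ] with a ha
        rw [← ENNReal.ofReal_add (InformationTheory.klFun_nonneg ENNReal.toReal_nonneg)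
          (Real.exp_nonneg _)]
        refine le_trans (le_of_eq ?_) (ENNReal.ofReal_le_ofReal (h1 _ ENNReal.toReal_nonneg))
        rw [ENNReal.ofReal_mul (by norm_num), ENNReal.ofReal_toReal ha]
        simp
    _ = ∫⁻ a in A, ENNReal.ofReal (InformationTheory.klFun (p.rnDeriv μ a).toReal) ∂μ +
          ∫⁻ _ in A, ENNReal.ofReal (Real.exp 2) ∂μ := lintegral_add_right _ measurable_const
    _ ≤ _ := by
        gcongr
        exact Measure.restrict_le_self

end Pool.Agent.Lib.MP_2024f4_pr
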