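import Mathlib
import Pool.Agent.Lib.MP_2024f4_pr.Lower
import Pool.Agent.Lib.MP_2024f4_pr.Tail

set_option autoImplicit false
set_option linter.unusedSectionVars false

open MeasureTheory ProbabilityTheory Set Filter Topology
open scoped ENNReal

namespace Pool.Agent.Lib.MP_2024f4_pr

section general

variable {X : Type} [NormedAddCommGroup X] [InnerProductSpace ℝ X] [FiniteDimensional ℝ X]
  [MeasurableSpace X] [BorelSpace X]

lemma tendsto_tail (ν : Measure X) [IsProbabilityMeasure ν] :
    Tendsto (fun n : ℕ => ν.real {w | (n : ℝ) < ‖w‖}) atTop (𝓝 0) := by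
  have h1 := tendsto_measure_iInter_atTop (μ := ν) (s := fun n : ℕ => {w | (n : ℝ) < ‖w‖})
    (fun n => (isOpen_lt continuous_const continuous_norm).measurableSet.nullMeasurableSet)
    (fun a b hab x (hx : (b : ℝ) < ‖x‖) => show (a : ℝ) < ‖x‖ from
      lt_of_le_of_lt (by exact_mod_cast hab) hx) ⟨0, measure_ne_top _ _⟩
  have h2 : ⋂ n : ℕ, {w : X | (n : ℝ) < ‖w‖} = ∅ := by
    rw [eq_empty_iff_forall_notMem]
    intro x hx
    obtain ⟨n, hn⟩ := exists_nat_gt ‖x‖
    exact absurd (mem_iInter.mp hx n) (not_lt.mpr hn.le)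
  rw [h2, measure_empty] at h1
  exact (ENNReal.tendsto_toReal ENNReal.zero_ne_top).comp h1

lemma real_ball_eq (ν : Measure X) [IsProbabilityMeasure ν] (V : ℝ) :
    ν.real {w | ‖w‖ ≤ V} = 1 - ν.real {w | V < ‖w‖} := by
  have h : {w : X | ‖w‖ ≤ V} = {w | V < ‖w‖}ᶜ := by ext w; simp
  rw [h, measureReal_compl (isOpen_lt continuous_const continuous_norm).measurableSet]
  simp

theorem noUniformRate {N : X × X → Measure (X × X)} {r : X × X → ℝ} (h : Reg N r)
    (hC : Confined N r) {U : X → ℝ} (hU : Standing U) (hL : LSI (target U)) (ν : Measure X)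
    [IsProbabilityMeasure ν] (l : X →L[ℝ] ℝ) (hl : ‖l‖ ≤ 1) (e : X) (he : ‖e‖ = 1)
    (hle : l e = 1) : NoUniformRate N ((target U).prod ν) := by
  intro lam hlam
  have := hU.isProb
  obtain ⟨C, hCt⟩ := tail_of_LSI (target U) hL l hl
  have hlog : 0 < Real.log 2 := Real.log_pos (by norm_num)
  set θ := min lam (Real.log 2) / 4 with hθ
  have hθ0 : 0 < θ := by positivity
  have hθ1 : 4 * θ ≤ lam := by rw [hθ]; linarith [min_le_left lam (Real.log 2)]
  have hθ2 : 4 * θ ≤ Real.log 2 := by rw [hθ]; linarith [min_le_right lam (Real.log 2)]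
  obtain ⟨n₀, hn₀⟩ := ((tendsto_tail ν).eventually
    (ge_mem_nhds (by norm_num : (0 : ℝ) < 1 / 2))).exists
  obtain ⟨V, δ, hV, hδ, hG⟩ := hC θ hθ0 n₀
  have hV0 := hG.V_nonneg
  have hν : ENNReal.ofReal (1 / 2) ≤ ν {w | ‖w‖ ≤ V} := by
    rw [← ofReal_measureReal (measure_ne_top _ _)]
    apply ENNReal.ofReal_le_ofReal
    have : ν.real {w | ‖w‖ ≤ (n₀ : ℝ)} ≤ ν.real {w | ‖w‖ ≤ V} :=
      measureReal_mono (fun w (hw : ‖w‖ ≤ n₀) => show ‖w‖ ≤ V from hw.trans hV)
    rw [real_ball_eq] at this
    linarith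
  set a := θ / (1 + V) with ha
  have ha0 : 0 < a := by positivity
  have := isProb_expLaw (X := X) ha0
  obtain ⟨c, hc0, hc⟩ := expLaw_halfspace ha0 l hl e he hle
  refine ⟨(expLaw X a).prod ν, inferInstance,
    ⟨a / 2, half_pos ha0, (integrable_exp_expLaw ha0).comp_fst ν⟩, ?_,
    fun t ht => h.isProb_law hC _ t ht, ?_⟩
  · rw [← Measure.compProd_const, ← Measure.compProd_const, InformationTheory.klDiv_compProd_left]
    exact klDiv_expLaw hU ha0
  rintro ⟨C₀, hC₀⟩
  have key : ∀ n : ℕ, c ≤ (|C₀| + Real.exp 2 * |C|) * Real.exp (-(2 * θ) * n) := by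
    intro n
    have hn : (0 : ℝ) ≤ n := Nat.cast_nonneg n
    have := h.isProb_law hC ((expLaw X a).prod ν) n hn
    have h1 := two_mul_le_klDiv (law N ((expLaw X a).prod ν) n) ((target U).prod ν)
      {z | (n : ℝ) ≤ l z.1}
    have h2 := h.law_halfspace hG ((expLaw X a).prod ν) l hl n hn n
    have h3 : ((expLaw X a).prod ν) {z | (n : ℝ) + V * n ≤ l z.1 ∧ ‖z.2‖ ≤ V} =
        expLaw X a {x | (n : ℝ) + V * n ≤ l x} * ν {w | ‖w‖ ≤ V} := by
      rw [← Measure.prod_prod]; rfl
    have h4 : ((target U).prod ν) {z | (n : ℝ) ≤ l z.1} = target U {x | (n : ℝ) ≤ l x} := by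
      have : {z : X × X | (n : ℝ) ≤ l z.1} = {x | (n : ℝ) ≤ l x} ×ˢ univ := by ext z; simp
      rw [this, Measure.prod_prod]; simp
    have h5 : target U {x | (n : ℝ) ≤ l x} ≤ ENNReal.ofReal (|C| * Real.exp (-(4 * θ) * n)) := by
      rw [← ofReal_measureReal (measure_ne_top _ _)]
      apply ENNReal.ofReal_le_ofReal
      refine (hCt n).trans ?_
      have : (1 / 2 : ℝ) ^ n ≤ Real.exp (-(4 * θ) * n) := by
        rw [mul_comm, Real.exp_nat_mul]
        refine pow_le_pow_left₀ (by norm_num) ?_ n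
        rw [← Real.exp_log (by norm_num : (0 : ℝ) < 1 / 2), one_div, Real.log_inv]
        exact Real.exp_le_exp.mpr (by linarith)
      exact mul_le_mul (le_abs_self C) this (by positivity) (abs_nonneg C)
    have h6 : InformationTheory.klDiv (law N ((expLaw X a).prod ν) n) ((target U).prod ν) ≤
        ENNReal.ofReal (|C₀| * Real.exp (-(4 * θ) * n)) := by
      refine (hC₀ n hn).trans (ENNReal.ofReal_le_ofReal ?_)
      exact mul_le_mul (le_abs_self C₀) (Real.exp_le_exp.mpr (by nlinarith)) (by positivity)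
        (abs_nonneg _)
    have h7 : ENNReal.ofReal (c * Real.exp (-(2 * θ) * n)) ≤
        2 * law N ((expLaw X a).prod ν) n {z | (n : ℝ) ≤ l z.1} := by
      have e1 : a * (n + V * n) = θ * n := by rw [ha]; field_simp
      calc ENNReal.ofReal (c * Real.exp (-(2 * θ) * n))
          = 2 * (ENNReal.ofReal (Real.exp (-θ * n)) *
            (ENNReal.ofReal (c * Real.exp (-a * (n + V * n))) * ENNReal.ofReal (1 / 2))) := by
            rw [← ENNReal.ofReal_mul (by positivity), ← ENNReal.ofReal_mul (by positivity),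
              ← ENNReal.ofReal_ofNat 2, ← ENNReal.ofReal_mul (by positivity), neg_mul a, e1]
            congr 1
            rw [show -(2 * θ) * n = -θ * n + -(θ * n) by ring, Real.exp_add]; ring
        _ ≤ 2 * (ENNReal.ofReal (Real.exp (-δ * n)) *
            (expLaw X a {x | (n : ℝ) + V * n ≤ l x} * ν {w | ‖w‖ ≤ V})) := by
            gcongr
            exact hc _ (by positivity)
        _ ≤ _ := by rw [← h3]; gcongr
    have h8 : ENNReal.ofReal (c * Real.exp (-(2 * θ) * n)) ≤
        ENNReal.ofReal ((|C₀| + Real.exp 2 * |C|) * Real.exp (-(4 * θ) * n)) := by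
      refine h7.trans (h1.trans ?_)
      rw [h4, add_mul, ENNReal.ofReal_add (by positivity) (by positivity), mul_assoc,
        ENNReal.ofReal_mul (Real.exp_nonneg 2)]
      gcongr
    rw [ENNReal.ofReal_le_ofReal_iff (by positivity),
      show -(4 * θ) * n = -(2 * θ) * n + -(2 * θ) * n by ring, Real.exp_add, ← mul_assoc] at h8
    exact le_of_mul_le_mul_right h8 (Real.exp_pos _)
  have hlim : Tendsto (fun n : ℕ => (|C₀| + Real.exp 2 * |C|) * Real.exp (-(2 * θ) * n)) atTop
      (𝓝 ((|C₀| + Real.exp 2 * |C|) * 0)) := by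
    refine Tendsto.const_mul _ (Real.tendsto_exp_atBot.comp ?_)
    exact Tendsto.const_mul_atTop_of_neg (by linarith) tendsto_natCast_atTop_atTop
  rw [mul_zero] at hlim
  exact absurd (ge_of_tendsto' hlim key) (not_le.mpr hc0)

lemma Standing.continuous_gradient {U : X → ℝ} (hU : Standing U) : Continuous (gradient U) :=
  (InnerProductSpace.toDual ℝ X).symm.continuous.comp (hU.1.continuous_fderiv (by simp))

lemma norm_reflect (g v : X) : ‖reflect g v‖ = ‖v‖ := by
  by_cases hg : g = 0
  · simp [reflect, hg]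
  have h1 : ‖g‖ ≠ 0 := norm_ne_zero_iff.mpr hg
  rw [← sq_eq_sq₀ (norm_nonneg _) (norm_nonneg _), reflect, norm_sub_sq_real, inner_smul_right,
    norm_smul, mul_pow, Real.norm_eq_abs, sq_abs]
  field_simp
  ring

lemma bps_reg {U : X → ℝ} (hU : Standing U) {γ : ℝ} (hγ : 0 < γ) :
    Reg (bps U γ) (fun z => max (inner ℝ z.2 (gradient U z.1)) 0 + γ) := by
  have hg := hU.continuous_gradient
  have hc : Continuous (fun z : X × X => max (inner ℝ z.2 (gradient U z.1)) (0 : ℝ)) :=
    (continuous_snd.inner (hg.comp continuous_fst)).max continuous_const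
  refine ⟨?_, hc.add continuous_const, fun z => by positivity, fun z => ?_⟩
  · apply Measure.measurable_of_measurable_coe
    intro A hA
    simp only [bps, Measure.add_apply, Measure.smul_apply, smul_eq_mul,
      Measure.map_apply measurable_prodMk_left hA]
    refine Measurable.add (Measurable.mul (ENNReal.measurable_ofReal.comp hc.measurable) ?_)
      (Measurable.const_mul ((measurable_measure_prodMk_left hA).comp measurable_fst) _)
    refine meas_coe (Measure.measurable_dirac.comp (measurable_fst.prodMk ?_)) hA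
    have h1 : Measurable (fun z : X × X => gradient U z.1) := (hg.comp continuous_fst).measurable
    have h2 : Measurable (fun z : X × X => (inner ℝ z.2 (gradient U z.1) : ℝ)) :=
      (continuous_snd.inner (hg.comp continuous_fst)).measurable
    exact measurable_snd.sub (((h2.const_mul 2).div (h1.norm.pow_const 2)).smul h1)
  · simp only [bps, Measure.add_apply, Measure.smul_apply, smul_eq_mul, measure_univ, mul_one,
      Measure.map_apply measurable_prodMk_left MeasurableSet.univ, preimage_univ]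
    rw [ENNReal.ofReal_add (le_max_right _ _) hγ.le]

lemma bps_confined {U : X → ℝ} {γ : ℝ} (hγ : 0 < γ) :
    Confined (bps U γ) (fun z => max (inner ℝ z.2 (gradient U z.1)) 0 + γ) := by
  intro ε hε V₀
  obtain ⟨n, hn1, hn2⟩ := (((tendsto_tail (stdGaussian X)).eventually
    (ge_mem_nhds (div_pos hε hγ))).and
      (tendsto_natCast_atTop_atTop.eventually (eventually_ge_atTop V₀))).exists
  have h0 : 0 ≤ (stdGaussian X).real {w | (n : ℝ) < ‖w‖} := measureReal_nonneg
  have h1 : (stdGaussian X).real {w | (n : ℝ) < ‖w‖} ≤ 1 := measureReal_le_one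
  refine ⟨n, γ * (stdGaussian X).real {w | (n : ℝ) < ‖w‖}, hn2, ?_, Nat.cast_nonneg n,
    by positivity, fun z => ?_, fun z hz => ?_⟩
  · rw [le_div_iff₀ hγ] at hn1; linarith
  · have := le_max_right (inner ℝ z.2 (gradient U z.1)) (0 : ℝ)
    nlinarith
  · have hS : MeasurableSet {w : X × X | w.1 = z.1 ∧ ‖w.2‖ ≤ n} :=
      ((isClosed_eq continuous_fst continuous_const).inter
        (isClosed_le continuous_snd.norm continuous_const)).measurableSet
    have h2 : Prod.mk z.1 ⁻¹' {w : X × X | w.1 = z.1 ∧ ‖w.2‖ ≤ n} = {w | ‖w‖ ≤ n} := by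
      ext w; simp
    simp only [bps, Measure.add_apply, Measure.smul_apply, smul_eq_mul,
      Measure.map_apply measurable_prodMk_left hS, h2]
    rw [Measure.dirac_apply_of_mem (by simpa [norm_reflect] using hz), mul_one,
      ← ofReal_measureReal (measure_ne_top (stdGaussian X) _), real_ball_eq,
      ← ENNReal.ofReal_mul hγ.le, ← ENNReal.ofReal_add (le_max_right _ _) (by nlinarith)]
    apply ENNReal.ofReal_le_ofReal
    linarith

end general

variable {d : ℕ}

lemma norm_flip (i : Fin d) (v : Euc d) : ‖flip i v‖ = ‖v‖ := by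
  rw [EuclideanSpace.norm_eq, EuclideanSpace.norm_eq]
  congr 1
  refine Finset.sum_congr rfl fun j _ => ?_
  by_cases h : j = i
  · subst h
    have : flip j v j = -v j := by simp [flip]; ring
    rw [this, norm_neg]
  · simp [flip, h]

lemma zigzag_reg {U : Euc d → ℝ} (hU : Standing U) {γ : Fin d → ℝ} (hγ : ∀ i, 0 < γ i) :
    Reg (zigzag U γ) (fun z => ∑ i, (max (z.2 i * gradient U z.1 i) 0 + γ i)) := by
  have hg := hU.continuous_gradient
  have hc : ∀ i, Continuous (fun z : Euc d × Euc d => max (z.2 i * gradient U z.1 i) 0 + γ i) :=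
    fun i => by fun_prop
  have hn : ∀ (z : Euc d × Euc d) i, 0 ≤ max (z.2 i * gradient U z.1 i) 0 + γ i := fun z i =>
    add_nonneg (le_max_right _ _) (hγ i).le
  refine ⟨?_, continuous_finsetSum _ fun i _ => hc i,
    fun z => Finset.sum_nonneg fun i _ => hn z i, fun z => ?_⟩
  · apply Measure.measurable_of_measurable_coe
    intro A hA
    simp only [zigzag, Measure.finsetSum_apply, Measure.smul_apply, smul_eq_mul]
    refine Finset.measurable_sum _ fun i _ =>
      Measurable.mul (ENNReal.measurable_ofReal.comp (hc i).measurable) ?_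
    refine meas_coe (Measure.measurable_dirac.comp (measurable_fst.prodMk ?_)) hA
    have : Continuous (fun z : Euc d × Euc d => flip i z.2) := by
      unfold flip
      refine continuous_snd.sub ?_
      have : (fun z : Euc d × Euc d => EuclideanSpace.single i (2 * z.2 i)) =
          fun z => (2 * z.2 i) • (EuclideanSpace.single i (1 : ℝ) : Euc d) := by
        funext z; ext j; by_cases h : j = i <;> simp [h]
      rw [this]; fun_prop
    exact this.measurable
  · simp only [zigzag, Measure.finsetSum_apply, Measure.smul_apply, smul_eq_mul, measure_univ,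
      mul_one]
    rw [ENNReal.ofReal_sum_of_nonneg fun i _ => hn z i]

lemma zigzag_confined {U : Euc d → ℝ} {γ : Fin d → ℝ} (hγ : ∀ i, 0 < γ i) :
    Confined (zigzag U γ) (fun z => ∑ i, (max (z.2 i * gradient U z.1 i) 0 + γ i)) := by
  intro ε hε V₀
  have hn : ∀ (z : Euc d × Euc d) i, 0 ≤ max (z.2 i * gradient U z.1 i) 0 + γ i := fun z i =>
    add_nonneg (le_max_right _ _) (hγ i).le
  refine ⟨max V₀ 0, 0, le_max_left _ _, hε.le, le_max_right _ _, le_rfl,
    fun z => Finset.sum_nonneg fun i _ => hn z i, fun z hz => ?_⟩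
  simp only [zigzag, Measure.finsetSum_apply, Measure.smul_apply, smul_eq_mul, sub_zero]
  rw [ENNReal.ofReal_sum_of_nonneg fun i _ => hn z i]
  refine Finset.sum_le_sum fun i _ => ?_
  rw [Measure.dirac_apply_of_mem, mul_one]
  exact ⟨rfl, (norm_flip i z.2).le.trans hz⟩

lemma isProb_signs (d : ℕ) : IsProbabilityMeasure (signs d) := by
  refine isProbabilityMeasure_uniformOn ?_ ⟨WithLp.toLp 2 (fun _ => 1), fun i => Or.inl rfl⟩
  have h1 : (Set.pi univ fun _ : Fin d => ({1, -1} : Set ℝ)).Finite :=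
    Set.Finite.pi fun _ => Set.toFinite _
  refine (h1.image (WithLp.toLp 2)).subset fun v hv => ⟨v.ofLp, fun i _ => hv i, rfl⟩

theorem both (hd : 0 < d) {U : Euc d → ℝ} (hU : Standing U) (hL : LSI (target U)) :
    (∀ γ : Fin d → ℝ, (∀ i, 0 < γ i) → NoUniformRate (zigzag U γ) ((target U).prod (signs d))) ∧
    (∀ γ : ℝ, 0 < γ → NoUniformRate (bps U γ) ((target U).prod (stdGaussian (Euc d)))) := by
  let e : Euc d := EuclideanSpace.single ⟨0, hd⟩ 1
  have he : ‖e‖ = 1 := by simp [e]
  have hl : ‖innerSL ℝ e‖ ≤ 1 := by rw [innerSL_apply_norm, he]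
  have hle : innerSL ℝ e e = 1 := by rw [innerSL_apply_apply, real_inner_self_eq_norm_sq, he]; simp
  have := isProb_signs d
  exact ⟨fun γ hγ => noUniformRate (zigzag_reg hU hγ) (zigzag_confined hγ) hU hL _ _ hl e he hle,
    fun γ hγ => noUniformRate (bps_reg hU hγ) (bps_confined hγ) hU hL _ _ hl e he hle⟩

end Pool.Agent.Lib.MP_2024f4_pr
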